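import Pool.Agent.Results.MP_633d19_co.SmallDegree

set_option autoImplicit false

/-!
# Combinatorial lemmas for the wreath product
-/

namespace Q130.RW

open Pool.Agent.Results.MP_633d19_co.SmallDegree

/-- Recursive choice along a well-founded relation. -/
theorem exists_rec {α β : Type*} (r : α → α → Prop) (wf : WellFounded r)
    (P : (a : α) → ((b : α) → r b a → β) → β → Prop)
    (h : ∀ a (prev : (b : α) → r b a → β), ∃ z, P a prev z) :
    ∃ F : α → β, ∀ a, P a (fun b _ => F b) (F a) := by
  classical
  choose G hG using h
  refine ⟨wf.fix G, fun a => ?_⟩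
  have := hG a (fun b _ => wf.fix G b)
  rw [wf.fix_eq]
  exact this

/-- An involution without fixed points has an alternating function. -/
theorem one_inv {A : Type*} (a : A → A) (ha : ∀ x, a (a x) = x) (ha' : ∀ x, a x ≠ x) :
    ∃ χ : A → Bool, ∀ x, χ (a x) = !(χ x) := by
  classical
  obtain ⟨r, hr⟩ : ∃ r : A → A → Prop, IsWellOrder A r := ⟨WellOrderingRel, inferInstance⟩
  refine ⟨fun x => decide (r x (a x)), fun x => ?_⟩
  show decide (r (a x) (a (a x))) = !(decide (r x (a x)))
  rw [ha]
  rcases trichotomous_of r x (a x) with h | h | h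
  · have h2 : ¬ r (a x) x := fun h2 => (asymm_of r h h2)
    simp [h, h2]
  · exact absurd h.symm (ha' x)
  · have h2 : ¬ r x (a x) := fun h2 => (asymm_of r h h2)
    simp [h, h2]

/-- Two involutions without fixed points have a common alternating function. -/
theorem two_inv {A : Type} (a b : A → A) (ha : ∀ x, a (a x) = x) (ha' : ∀ x, a x ≠ x)
    (hb : ∀ x, b (b x) = x) (hb' : ∀ x, b x ≠ x) :
    ∃ χ : A → Bool, (∀ x, χ (a x) = !(χ x)) ∧ ∀ x, χ (b x) = !(χ x) := by
  classical
  let s : Equiv.Perm A := ⟨a, a, ha, ha⟩
  let t : Equiv.Perm A := ⟨b, b, hb, hb⟩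
  have hs : s * s = 1 := by ext x; exact ha x
  have ht : t * t = 1 := by ext x; exact hb x
  have hsa : ∀ x, s x = a x := fun _ => rfl
  have htb : ∀ x, t x = b x := fun _ => rfl
  have hdih : ∀ (n : ℤ) (x : A), s (((s * t) ^ n) x) = ((s * t) ^ (-n)) (s x) := by
    intro n x
    have h := congrArg (fun p : Equiv.Perm A => p x) (dih s t hs ht n)
    simpa [Equiv.Perm.mul_apply] using h
  -- `a x` is not in the orbit of `x`
  have key : ∀ x, ¬ (s * t).SameCycle x (s x) := by
    rintro x ⟨n, hn⟩
    rcases Int.even_or_odd' n with ⟨m, hm | hm⟩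
    · apply ha' (((s * t) ^ m) x)
      rw [← hsa, hdih, ← hn, ← Equiv.Perm.mul_apply, ← zpow_add, hm]
      congr 2
      ring
    · apply hb' (((s * t) ^ m) x)
      rw [← htb]
      have h1 : t (((s * t) ^ m) x) = s (((s * t) ^ (m + 1)) x) := by
        have h2 : (s * t) ^ (m + 1) = (s * t) * (s * t) ^ m := by
          rw [add_comm, zpow_one_add]
        rw [h2]
        simp only [Equiv.Perm.mul_apply]
        exact (ha _).symm
      rw [h1, hdih, ← hn, ← Equiv.Perm.mul_apply, ← zpow_add, hm]
      congr 2
      ring
  let S : Setoid A := Equiv.Perm.SameCycle.setoid (s * t)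
  have hSs : ∀ x y : A, S x y → S (s x) (s y) := by
    rintro x y ⟨n, hn⟩
    refine ⟨-n, ?_⟩
    rw [← hdih, hn]
  let ā : Quotient S → Quotient S := Quotient.map s hSs
  obtain ⟨χ, hχ⟩ := one_inv ā (by
    intro q
    induction q using Quotient.inductionOn with
    | h x =>
      show Quotient.mk S (s (s x)) = Quotient.mk S x
      rw [hsa, hsa, ha]) (by
    intro q
    induction q using Quotient.inductionOn with
    | h x =>
      intro h
      have h2 : Quotient.mk S (s x) = Quotient.mk S x := h
      have h3 : S (s x) x := Quotient.exact h2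
      exact key x (Equiv.Perm.SameCycle.symm h3))
  refine ⟨fun x => χ (Quotient.mk S x), fun x => hχ (Quotient.mk S x), fun x => ?_⟩
  have h1 : Quotient.mk S (b x) = Quotient.mk S (s x) := by
    apply Quotient.sound
    refine ⟨1, ?_⟩
    rw [zpow_one, Equiv.Perm.mul_apply, ← htb]
    have : t (t x) = x := hb x
    rw [this]
  show χ (Quotient.mk S (b x)) = !(χ (Quotient.mk S x))
  rw [h1]
  exact hχ (Quotient.mk S x)

/-- Injective choice with an increasing rank. -/
theorem acyc_inj {J C : Type*} [DecidableEq J] [DecidableEq C] (g : J → Option C) :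
    ∀ (n : ℕ) (T : Finset J) (M : Finset C), T.card = n → T.card < M.card →
    ∃ κ : J → C, (∀ j ∈ T, κ j ∈ M) ∧ (∀ i ∈ T, ∀ j ∈ T, κ i = κ j → i = j) ∧
      ∃ l : C → ℕ, ∀ j ∈ T, ∀ c, g j = some c → l (κ j) < l c := by
  classical
  intro n
  induction n with
  | zero =>
    intro T M hT hM
    have hT' := Finset.card_eq_zero.1 hT
    subst hT'
    obtain ⟨c, hc⟩ := Finset.card_pos.1 (by simpa using hM : 0 < M.card)
    exact ⟨fun _ => c, by simp, by simp, fun _ => 0, by simp⟩
  | succ n ih =>
    intro T M hT hM
    obtain ⟨j0, hj0⟩ := Finset.card_pos.1 (by omega : 0 < T.card)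
    obtain ⟨c, hc, hcg⟩ : ∃ c ∈ M, ∀ j ∈ T, g j ≠ some c := by
      by_contra hcon
      push Not at hcon
      have hsub : M.image some ⊆ T.image g := by
        intro o ho
        obtain ⟨c, hc, rfl⟩ := Finset.mem_image.1 ho
        obtain ⟨j, hj, h⟩ := hcon c hc
        exact Finset.mem_image.2 ⟨j, hj, h⟩
      have h1 := Finset.card_le_card hsub
      rw [Finset.card_image_of_injective _ (Option.some_injective C)] at h1
      have h2 : (T.image g).card ≤ T.card := Finset.card_image_le
      omega
    obtain ⟨κ, h1, h2, l, h3⟩ := ih (T.erase j0) (M.erase c)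
      (by rw [Finset.card_erase_of_mem hj0]; omega)
      (by rw [Finset.card_erase_of_mem hj0, Finset.card_erase_of_mem hc]; omega)
    have hne : ∀ j ∈ T, j ≠ j0 → κ j ∈ M.erase c := fun j hj hj' =>
      h1 j (Finset.mem_erase.2 ⟨hj', hj⟩)
    refine ⟨Function.update κ j0 c, ?_, ?_, fun x => if x = c then 0 else l x + 1, ?_⟩
    · intro j hj
      by_cases h : j = j0
      · rw [h, Function.update_self]; exact hc
      · rw [Function.update_of_ne h]; exact Finset.mem_of_mem_erase (hne j hj h)
    · intro i hi j hj hij
      by_cases h : i = j0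
      · by_cases h' : j = j0
        · rw [h, h']
        · exfalso
          rw [h, Function.update_self, Function.update_of_ne h'] at hij
          have := hne j hj h'
          rw [← hij] at this
          exact (Finset.mem_erase.1 this).1 rfl
      · by_cases h' : j = j0
        · exfalso
          rw [h', Function.update_self, Function.update_of_ne h] at hij
          have := hne i hi h
          rw [hij] at this
          exact (Finset.mem_erase.1 this).1 rfl
        · rw [Function.update_of_ne h, Function.update_of_ne h'] at hij
          exact h2 i (Finset.mem_erase.2 ⟨h, hi⟩) j (Finset.mem_erase.2 ⟨h', hj⟩) hij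
    · intro j hj c' hc'
      have hcc : c' ≠ c := fun h => hcg j hj (by rw [hc', h])
      show (if Function.update κ j0 c j = c then 0 else l (Function.update κ j0 c j) + 1) <
        (if c' = c then 0 else l c' + 1)
      rw [if_neg hcc]
      by_cases h : j = j0
      · rw [h, Function.update_self, if_pos rfl]; omega
      · rw [Function.update_of_ne h, if_neg (Finset.mem_erase.1 (hne j hj h)).1]
        have := h3 j (Finset.mem_erase.2 ⟨h, hj⟩) c' hc'
        omega

/-- Choice of colours at all vertices such that the digraph of the tokens is acyclic. -/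
theorem assign {J Z C : Type} [Finite J] [Finite Z] [Finite C] (inc : J → Z → Prop)
    (M : Z → Finset C) (hM : ∀ z, {j | inc j z}.ncard < (M z).card) (tz : J → Z) (tc : J → C) :
    ∃ κ : J → Z → C, (∀ j z, inc j z → κ j z ∈ M z) ∧
      (∀ z i j, inc i z → inc j z → κ i z = κ j z → i = j) ∧
      ∃ r : J → ℕ, ∀ i j, inc j (tz i) → κ j (tz i) = tc i → r i < r j := by
  classical
  have : Fintype J := Fintype.ofFinite J
  have : Fintype Z := Fintype.ofFinite Z
  have : Fintype C := Fintype.ofFinite C
  suffices H : ∀ S : Finset Z, ∃ κ : J → Z → C, (∀ z ∈ S, ∀ j, inc j z → κ j z ∈ M z) ∧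
      (∀ z ∈ S, ∀ i j, inc i z → inc j z → κ i z = κ j z → i = j) ∧
      ∃ r : J → ℕ, ∀ i j, tz i ∈ S → inc j (tz i) → κ j (tz i) = tc i → r i < r j by
    obtain ⟨κ, h1, h2, r, h3⟩ := H Finset.univ
    exact ⟨κ, fun j z => h1 z (Finset.mem_univ _) j, fun z => h2 z (Finset.mem_univ _), r,
      fun i j => h3 i j (Finset.mem_univ _)⟩
  intro S
  induction S using Finset.induction_on with
  | empty =>
    by_cases hJ : Nonempty J
    · obtain ⟨j⟩ := hJ
      exact ⟨fun _ _ => tc j, by simp, by simp, fun _ => 0, by simp⟩
    · rw [not_nonempty_iff] at hJ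
      exact ⟨fun j => isEmptyElim j, by simp, by simp, fun _ => 0, by simp⟩
  | insert z S hz ih =>
    obtain ⟨κ, h1, h2, r, h3⟩ := ih
    let Arc : J → J → Prop := fun i j => tz i ∈ S ∧ inc j (tz i) ∧ κ j (tz i) = tc i
    let A : J → Set C := fun j => {c | ∃ i, Relation.ReflTransGen Arc j i ∧ tz i = z ∧ tc i = c}
    let pick : Set C → Option C := fun X => if h : X.Nonempty then some h.some else none
    let g : J → Option C := fun j => pick (A j)
    obtain ⟨κz, k1, k2, l, k3⟩ := acyc_inj g _ (Finset.univ.filter (fun j => inc j z)) (M z) rfl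
      (by
        have := hM z
        rwa [Set.ncard_eq_toFinset_card' {j | inc j z}, Set.toFinset_ofPred] at this)
    have k1' : ∀ j, inc j z → κz j ∈ M z := fun j hj => k1 j (by simp [hj])
    have k2' : ∀ i j, inc i z → inc j z → κz i = κz j → i = j := fun i j hi hj =>
      k2 i (by simp [hi]) j (by simp [hj])
    have k3' : ∀ j, inc j z → ∀ c, g j = some c → l (κz j) < l c := fun j hj =>
      k3 j (by simp [hj])
    let Λ : ℕ := Finset.univ.sup l + 1
    let N : ℕ := Finset.univ.sup r + 1
    have hΛ : ∀ c, l c < Λ := fun c => Nat.lt_succ_of_le (Finset.le_sup (Finset.mem_univ c))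
    have hN : ∀ j, r j < N := fun j => Nat.lt_succ_of_le (Finset.le_sup (Finset.mem_univ j))
    let lt : Option C → ℕ := fun o => match o with
      | some c => l c
      | none => Λ
    refine ⟨fun j z' => if z' = z then κz j else κ j z', ?_, ?_,
      fun j => lt (g j) * N + r j, ?_⟩
    · intro z' hz' j hj
      by_cases h : z' = z
      · simp only [h, if_true]
        rw [h] at hj
        exact k1' j hj
      · simp only [h, if_false]
        exact h1 z' (Finset.mem_of_mem_insert_of_ne hz' h) j hj
    · intro z' hz' i j hi hj hij
      by_cases h : z' = z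
      · simp only [h, if_true] at hij
        rw [h] at hi hj
        exact k2' i j hi hj hij
      · simp only [h, if_false] at hij
        exact h2 z' (Finset.mem_of_mem_insert_of_ne hz' h) i j hi hj hij
    · intro i j hi hj hij
      by_cases h : tz i = z
      · -- new arcs
        rw [h] at hj
        simp only [h, if_true] at hij
        have hA : A i = {tc i} := by
          ext c
          constructor
          · rintro ⟨i', h4, h5, h6⟩
            rcases Relation.ReflTransGen.cases_head h4 with h7 | ⟨b, h7, _⟩
            · rw [h7]; exact h6.symm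
            · exfalso
              have := h7.1
              rw [h] at this
              exact hz this
          · intro hc
            exact ⟨i, Relation.ReflTransGen.refl, h, hc.symm⟩
        have hgi : g i = some (tc i) := by
          have hne : (A i).Nonempty := by rw [hA]; exact Set.singleton_nonempty _
          show pick (A i) = _
          simp only [pick]
          rw [dif_pos hne]
          congr 1
          have h9 : ∀ x ∈ A i, x = tc i := by
            rw [hA]
            intro x hx
            exact hx
          exact h9 _ hne.some_mem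
        have hlt : l (tc i) < lt (g j) := by
          rcases hgj : g j with _ | c
          · exact hΛ _
          · have := k3' j hj c hgj
            rw [hij] at this
            exact this
        show lt (g i) * N + r i < lt (g j) * N + r j
        have e1 : lt (g i) = l (tc i) := by rw [hgi]
        rw [e1]
        have h4 : (l (tc i) + 1) * N ≤ lt (g j) * N := Nat.mul_le_mul_right _ hlt
        have h5 := hN i
        rw [Nat.add_mul, one_mul] at h4
        omega
      · -- old arcs
        have hiS : tz i ∈ S := Finset.mem_of_mem_insert_of_ne hi h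
        simp only [h, if_false] at hij
        have hA : A i = A j := by
          ext c
          constructor
          · rintro ⟨i', h4, h5, h6⟩
            rcases Relation.ReflTransGen.cases_head h4 with h7 | ⟨b, h7, h8⟩
            · exfalso
              rw [← h7] at h5
              exact h h5
            · have hb : b = j := h2 (tz i) hiS b j h7.2.1 hj (h7.2.2.trans hij.symm)
              rw [hb] at h8
              exact ⟨i', h8, h5, h6⟩
          · rintro ⟨i', h4, h5, h6⟩
            exact ⟨i', Relation.ReflTransGen.head ⟨hiS, hj, hij⟩ h4, h5, h6⟩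
        have hg : g i = g j := by
          show pick (A i) = pick (A j)
          rw [hA]
        have := h3 i j hiS hj hij
        show lt (g i) * N + r i < lt (g j) * N + r j
        rw [hg]
        omega

end Q130.RW
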