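import Pool.Agent.Q130.RW.Stage

set_option autoImplicit false

/-!
# Lifting data exist
-/

namespace Q130.RW

open Pool.Agent.W998.KG
open Pool.Agent.Results.MP_633d19_co.SmallDegree
open Pool.Agent.Results.MP_633d19_co.SmallDegree.MGraph

variable {V E U : Type}

open Classical in
/-- The involutions given by a family of sets `B j`. -/
noncomputable def Lf (G : MGraph V E) {k D : ℕ} (ty : E → Option (Fin D)) (t0 : Fin D)
    (c : E → Option (Fin k)) (m : Fin D → U → U) (B : {e // c e = none} → U → Bool) (e : E)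
    (h : U) : U :=
  match ty e with
  | none => if h' : c e = none then (if B ⟨e, h'⟩ h = true then m t0 h else h) else h
  | some t => if t = t0 then
      (if ∃ j : {e // c e = none}, G.ends j.1 = G.ends e ∧ B j h = true then h else m t0 h)
      else m t h

theorem Lf_inv (G : MGraph V E) {k D : ℕ} (ty : E → Option (Fin D)) (t0 : Fin D)
    (c : E → Option (Fin k)) (m : Fin D → U → U) (hm : ∀ t h, m t (m t h) = h)
    (B : {e // c e = none} → U → Bool) (hB : ∀ j h, B j (m t0 h) = B j h) (e : E) (h : U) :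
    Lf G ty t0 c m B e (Lf G ty t0 c m B e h) = h := by
  classical
  unfold Lf
  rcases hte : ty e with _ | t
  · simp only
    by_cases h' : c e = none
    · simp only [h', dif_pos]
      by_cases h1 : B ⟨e, h'⟩ h = true
      · rw [if_pos h1, if_pos (by rw [hB]; exact h1), hm]
      · rw [if_neg h1, if_neg h1]
    · simp only [h', dif_neg, not_false_eq_true]
  · simp only
    by_cases ht : t = t0
    · simp only [ht, if_true]
      by_cases h1 : ∃ j : {e // c e = none}, G.ends j.1 = G.ends e ∧ B j h = true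
      · rw [if_pos h1, if_pos h1]
      · rw [if_neg h1, if_neg (by
          rintro ⟨j, h2, h3⟩
          exact h1 ⟨j, h2, by rw [hB] at h3; exact h3⟩), hm]
    · simp only [ht, if_false]
      exact hm t h

theorem ld_exists [Finite V] [Finite E] (G : MGraph V E) {D k : ℕ} (hD : 1 ≤ D)
    (ty : E → Option (Fin D)) (hty : ∀ e f, G.ends e = G.ends f → ty e = ty f → e = f)
    (hdeg : ∀ u, G.degree u + D ≤ k) (m : Fin D → U → U) (hm : ∀ t h, m t (m t h) = h)
    (hm0 : ∀ h, m ⟨0, hD⟩ h ≠ h) :
    ∃ (c : E → Option (Fin k)) (L : E → U → U) (κ : {e // c e = none} → V → Fin k)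
      (xx yy : {e // c e = none} → V) (P : {e // c e = none} → Set V)
      (s : {e // c e = none} → U → V → Bool), LD G k c L κ xx yy P s ∧
      (∀ e, ty e = none → ∀ h, ∃ e', G.ends e' = G.ends e ∧ L e' h = h) ∧
      (∀ e t, ty e = some t → ∀ h, ∃ e', G.ends e' = G.ends e ∧ L e' h = m t h) := by
  classical
  obtain ⟨t0, ht0⟩ : ∃ t0 : Fin D, t0 = ⟨0, hD⟩ := ⟨_, rfl⟩
  rw [← ht0] at hm0
  obtain ⟨c, hc, hgood⟩ := good_exists G hD ty hty hdeg
  have hpp := hc.pp
  have hdeg1 : ∀ u, G.degree u + 1 ≤ k := fun u => by have := hdeg u; omega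
  -- ends
  have hex : ∀ j : {e // c e = none}, ∃ x y, G.ends j.1 = s(x, y) := by
    intro j
    induction h : G.ends j.1 with
    | h x y => exact ⟨x, y, rfl⟩
  choose xx yy hends using hex
  have hxy : ∀ j, xx j ≠ yy j := fun j => ne_of_ends G (hends j)
  -- closed elementary sets
  have hex : ∀ j : {e // c e = none}, ∃ X : Set V, (∀ u ∈ G.ends j.1, u ∈ X) ∧ CE G c X := by
    intro j
    obtain ⟨X, h1, h2, h3⟩ := closure_exists hc hdeg1 j.2
    exact ⟨X, h1, h2, h3⟩
  choose X hX hCE using hex
  have hXx : ∀ j, xx j ∈ X j := fun j => hX j _ (by rw [hends]; simp)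
  have hXy : ∀ j, yy j ∈ X j := fun j => hX j _ (by rw [hends]; simp)
  -- partners
  have hex : ∀ j : {e // c e = none}, ∃ (f : E) (a : Fin k), ty f = some t0 ∧
      G.ends f = G.ends j.1 ∧ c f = some a := by
    intro j
    obtain ⟨f, h1, h2, h3⟩ := (hgood j.1 j.2).2 t0
    obtain ⟨a, ha⟩ := Option.ne_none_iff_exists'.mp h3
    exact ⟨f, a, h1, h2, ha⟩
  choose f fc hf1 hf2 hf3 using hex
  have hmiss : ∀ v, ∃ b, G.Miss c v b := by
    intro v
    have h1 := mset_card G hpp v
    have h2 := hdeg v
    have h3 : 0 < (mset G c v).card := by omega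
    obtain ⟨b, hb⟩ := Finset.card_pos.1 h3
    exact ⟨b, (mem_mset G c v b).1 hb⟩
  -- tokens
  let T : {e // c e = none} → V → Prop := fun j z => G.Miss c z (fc j) ∧
    ∃ i : {e // c e = none}, z ∈ G.ends i.1 ∧ xx j ∈ X i
  let tz : {e // c e = none} → V := fun j => if h : ∃ z, T j z then h.choose else xx j
  have hT : ∀ j z, T j z → tz j = z := by
    intro j z hz
    have H : ∃ z, T j z := ⟨z, hz⟩
    simp only [tz]
    rw [dif_pos H]
    obtain ⟨h1, i, h2, h3⟩ := H.choose_spec
    obtain ⟨h1', i', h2', h3'⟩ := hz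
    exact union_elem hpp (hCE i) (hCE i') h3 h3' (hmiss _) (hX i _ h2) (hX i' _ h2') h1 h1'
  obtain ⟨κ, k1, k2, r, k3⟩ := assign (J := {e // c e = none}) (Z := V) (C := Fin k)
    (fun j z => z ∈ G.ends j.1) (fun z => mset G c z) (by
      intro z
      have h1 := mset_card G hpp z
      have h2 := hdeg z
      have h3 : {j : {e // c e = none} | z ∈ G.ends j.1}.ncard =
          {e | z ∈ G.ends e ∧ c e = none}.ncard := by
        refine Set.ncard_congr (fun j _ => j.1) ?_ ?_ ?_
        · intro j hj
          exact ⟨hj, j.2⟩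
        · intro i j _ _ h
          exact Subtype.ext h
        · rintro e ⟨h4, h5⟩
          exact ⟨⟨e, h5⟩, h4, rfl⟩
      omega) tz fc
  have k1' : ∀ j z, z ∈ G.ends j.1 → G.Miss c z (κ j z) := fun j z hz =>
    (mem_mset G c z _).1 (k1 j z hz)
  have mx : ∀ j, G.Miss c (xx j) (κ j (xx j)) := fun j => k1' j _ (by rw [hends]; simp)
  have my : ∀ j, G.Miss c (yy j) (κ j (yy j)) := fun j => k1' j _ (by rw [hends]; simp)
  -- paths
  have hex : ∀ j, ∃ (l : ℕ) (v : ℕ → V), v 0 = xx j ∧ v l = yy j ∧
      (∀ i ≤ l, ∀ i' ≤ l, v i = v i' → i = i') ∧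
      (∀ i < l, ∃ e, c e = some (altc (κ j (xx j)) (κ j (yy j)) i) ∧
        G.ends e = s(v i, v (i + 1))) ∧ (∀ i ≤ l, v i ∈ X j) := fun j =>
    path_in hpp (hCE j) (hXx j) (hXy j) (hxy j) (mx j) (my j)
  choose l v hv0 hvl hvinj hved hvX using hex
  let P : {e // c e = none} → Set V := fun j => {u | ∃ i ≤ l j, u = v j i}
  have hPX : ∀ j u, u ∈ P j → u ∈ X j := by
    rintro j u ⟨i, hi, rfl⟩
    exact hvX j i hi
  -- edges of the paths
  have hPe : ∀ j e a u, c e = some a → (a = κ j (xx j) ∨ a = κ j (yy j)) → u ∈ G.ends e →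
      u ∈ P j → ∃ i' < l j, c e = some (altc (κ j (xx j)) (κ j (yy j)) i') ∧
        G.ends e = s(v j i', v j (i' + 1)) := by
    rintro j e a u hca ha hu ⟨i, hi, rfl⟩
    exact path_edges hpp (hxy j) (mx j) (my j) (hv0 j) (hvl j) (hved j) ha hca hi hu
  -- the involutions on the path of `j` only depend on the lower sets
  have hlow : ∀ j (B B' : {e // c e = none} → U → Bool), (∀ i, r i < r j → B i = B' i) →
      ∀ e, ∀ i' < l j, c e = some (altc (κ j (xx j)) (κ j (yy j)) i') →
        G.ends e = s(v j i', v j (i' + 1)) → Lf G ty t0 c m B e = Lf G ty t0 c m B' e := by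
    intro j B B' hBB e i' hi' hce hee
    funext h
    unfold Lf
    rcases hte : ty e with _ | t
    · simp only
      have h' : ¬ c e = none := by rw [hce]; simp
      simp only [h', dif_neg, not_false_eq_true]
    · simp only
      by_cases ht : t = t0
      · simp only [ht, if_true]
        have key : ∀ i : {e // c e = none}, G.ends i.1 = G.ends e → B i = B' i := by
          intro i hi
          apply hBB
          have hfe : f i = e := hty _ _ (by rw [hf2, hi]) (by rw [hf1, hte, ht])
          have h1 := hf3 i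
          rw [hfe, hce] at h1
          have h2 : fc i = altc (κ j (xx j)) (κ j (yy j)) i' := (Option.some.inj h1).symm
          have hxi : xx i ∈ X j := by
            have h3 : xx i ∈ G.ends e := by rw [← hi, hends]; simp
            rw [hee, Sym2.mem_iff] at h3
            rcases h3 with h3 | h3
            · rw [h3]; exact hvX j i' (by omega)
            · rw [h3]; exact hvX j (i' + 1) (by omega)
          rcases altc_or (κ j (xx j)) (κ j (yy j)) i' with h4 | h4
          · have h5 : tz i = xx j := hT i (xx j) ⟨by rw [h2, h4]; exact mx j, j,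
              by rw [hends]; simp, hxi⟩
            apply k3 i j
            · rw [h5, hends]; simp
            · rw [h5, h2, h4]
          · have h5 : tz i = yy j := hT i (yy j) ⟨by rw [h2, h4]; exact my j, j,
              by rw [hends]; simp, hxi⟩
            apply k3 i j
            · rw [h5, hends]; simp
            · rw [h5, h2, h4]
        have hiff : (∃ i : {e // c e = none}, G.ends i.1 = G.ends e ∧ B i h = true) ↔
            (∃ i : {e // c e = none}, G.ends i.1 = G.ends e ∧ B' i h = true) := by
          constructor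
          · rintro ⟨i, h1, h2⟩
            exact ⟨i, h1, by rw [← key i h1]; exact h2⟩
          · rintro ⟨i, h1, h2⟩
            exact ⟨i, h1, by rw [key i h1]; exact h2⟩
        simp only [hiff]
      · simp only [ht, if_false]
  -- the choice of the sets
  let GoodJ : {e // c e = none} → ({e // c e = none} → U → Bool) → Prop := fun j B =>
    ∃ s : U → V → Bool, (∀ e a u w, c e = some a → (a = κ j (xx j) ∨ a = κ j (yy j)) →
      G.ends e = s(u, w) → u ∈ P j → w ∈ P j ∧ ∀ h, s h u = s (Lf G ty t0 c m B e h) w) ∧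
      ∀ h, s h (xx j) ≠ s (Lf G ty t0 c m B j.1 h) (yy j)
  obtain ⟨B, hB⟩ := exists_rec (β := U → Bool) (fun i j : {e // c e = none} => r i < r j)
    (InvImage.wf r Nat.lt_wfRel.wf)
    (fun j prev z => (∀ i (h' : r i < r j), ∀ h, prev i h' (m t0 h) = prev i h' h) →
      (∀ h, z (m t0 h) = z h) ∧ ∀ B : {e // c e = none} → U → Bool,
        (∀ i (h' : r i < r j), B i = prev i h') → B j = z → GoodJ j B) (by
      intro j prev
      by_cases hprev : ∀ i (h' : r i < r j), ∀ h, prev i h' (m t0 h) = prev i h' h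
      swap
      · exact ⟨fun _ => false, fun h => absurd h hprev⟩
      let B0 : {e // c e = none} → U → Bool := fun i =>
        if h : r i < r j then prev i h else fun _ => false
      have hB0 : ∀ i h, B0 i (m t0 h) = B0 i h := by
        intro i h
        simp only [B0]
        split_ifs with h1
        · exact hprev i h1 h
        · rfl
      obtain ⟨g, hg⟩ : ∃ g : ℕ → E, ∀ i < l j,
          c (g i) = some (altc (κ j (xx j)) (κ j (yy j)) i) ∧
          G.ends (g i) = s(v j i, v j (i + 1)) := by
        refine ⟨fun i => if h : i < l j then (hved j i h).choose else j.1, fun i hi => ?_⟩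
        simp only [dif_pos hi]
        exact (hved j i hi).choose_spec
      obtain ⟨ρ, hρ⟩ := transport (l j) (v j) (hvinj j) (fun i => Lf G ty t0 c m B0 (g i))
        (fun i h => Lf_inv G ty t0 c m hm B0 hB0 (g i) h)
      obtain ⟨χ, z, hz1, hz2⟩ := choose_chi (m t0) (hm t0) hm0 ρ
      obtain ⟨s, hs1, hs2, hs3⟩ := hρ χ
      refine ⟨z, fun _ => ⟨hz1, ?_⟩⟩
      intro B hBprev hBj
      have hBB0 : ∀ i, r i < r j → B i = B0 i := by
        intro i hi
        rw [hBprev i hi]
        simp only [B0]
        rw [dif_pos hi]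
      refine ⟨s, ?_, ?_⟩
      · intro e a u w hce ha hee hu
        obtain ⟨i', hi', h1, h2⟩ := hPe j e a u hce ha (by rw [hee]; simp) hu
        have heg : e = g i' := hpp e (g i') (v j i') _ (by rw [h2]; simp)
          (by rw [(hg i' hi').2]; simp) h1 (hg i' hi').1
        have hLL : Lf G ty t0 c m B e = Lf G ty t0 c m B0 e := hlow j B B0 hBB0 e i' hi' h1 h2
        rw [hee, Sym2.eq_iff] at h2
        rcases h2 with ⟨h2, h3⟩ | ⟨h2, h3⟩
        · refine ⟨⟨i' + 1, hi', h3⟩, fun h => ?_⟩
          rw [h2, h3, hLL, heg]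
          exact hs3 i' hi' h
        · refine ⟨⟨i', hi'.le, h3⟩, fun h => ?_⟩
          rw [h2, h3, hLL, heg]
          have h4 := hs3 i' hi' (Lf G ty t0 c m B0 (g i') h)
          rw [Lf_inv G ty t0 c m hm B0 hB0] at h4
          exact h4.symm
      · intro h
        have h1 : Lf G ty t0 c m B j.1 h = if z h = true then m t0 h else h := by
          unfold Lf
          rw [(hgood j.1 j.2).1]
          simp only [j.2, dif_pos]
          rw [hBj]
        rw [h1, ← hv0 j, ← hvl j, hs1, hs2]
        exact hz2 h)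
  have hBinv : ∀ n, ∀ j, r j = n → ∀ h, B j (m t0 h) = B j h := by
    intro n
    induction n using Nat.strong_induction_on with
    | _ n IH =>
      intro j hj
      exact (hB j (fun i h' => IH (r i) (by omega) i rfl)).1
  have hBinv' : ∀ j h, B j (m t0 h) = B j h := fun j => hBinv (r j) j rfl
  have hgoodJ : ∀ j, GoodJ j B := fun j =>
    (hB j (fun i _ => hBinv' i)).2 B (fun _ _ => rfl) rfl
  choose s hs1 hs2 using hgoodJ
  refine ⟨c, Lf G ty t0 c m B, κ, xx, yy, P, s, ?_, ?_, ?_⟩
  · refine ⟨hpp, Lf_inv G ty t0 c m hm B hBinv', k1', ?_, hends, ?_, ?_, ?_, hs2, ?_, ?_, ?_, ?_⟩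
    · intro i j z hi hj hij
      exact k2 z i j hi hj hij
    · intro j
      exact ⟨0, Nat.zero_le _, (hv0 j).symm⟩
    · intro j
      exact ⟨l j, le_rfl, (hvl j).symm⟩
    · intro j e a u w
      exact hs1 j e a u w
    · intro i j u a hui huj ha ha'
      have h1 : ∃ z, z ∈ G.ends i.1 ∧ a = κ i z := by
        rcases ha with h | h
        · exact ⟨xx i, by rw [hends]; simp, h⟩
        · exact ⟨yy i, by rw [hends]; simp, h⟩
      have h2 : ∃ z, z ∈ G.ends j.1 ∧ a = κ j z := by
        rcases ha' with h | h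
        · exact ⟨xx j, by rw [hends]; simp, h⟩
        · exact ⟨yy j, by rw [hends]; simp, h⟩
      obtain ⟨z, hz, hza⟩ := h1
      obtain ⟨z', hz', hza'⟩ := h2
      have hm1 : G.Miss c z a := by rw [hza]; exact k1' i z hz
      have hm2 : G.Miss c z' a := by rw [hza']; exact k1' j z' hz'
      have h3 : z = z' := union_elem hpp (hCE i) (hCE j) (hPX i u hui) (hPX j u huj) (hmiss u)
        (hX i z hz) (hX j z' hz') hm1 hm2
      subst h3
      exact k2 z i j hz hz' (by rw [← hza, ← hza'])
    · intro j h
      have h1 := my j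
      rw [← h] at h1
      exact hxy j ((hCE j).elem _ (hXx j) _ (hXy j) _ (mx j) h1)
    · intro j u hu hne h
      exact hne ((hCE j).elem _ (hPX j u hu) _ (hXx j) _ h (mx j))
    · intro j u hu hne h
      exact hne ((hCE j).elem _ (hPX j u hu) _ (hXy j) _ h (my j))
  · intro e he h
    by_cases hce : c e = none
    · by_cases hb : B ⟨e, hce⟩ h = true
      · refine ⟨f ⟨e, hce⟩, hf2 _, ?_⟩
        unfold Lf
        rw [hf1]
        simp only [if_true]
        rw [if_pos ⟨⟨e, hce⟩, (hf2 _).symm, hb⟩]
      · refine ⟨e, rfl, ?_⟩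
        unfold Lf
        rw [he]
        simp only [hce, dif_pos]
        rw [if_neg hb]
    · refine ⟨e, rfl, ?_⟩
      unfold Lf
      rw [he]
      simp only [hce, dif_neg, not_false_eq_true]
  · intro e t he h
    by_cases ht : t = t0
    · subst ht
      by_cases hj : ∃ j : {e // c e = none}, G.ends j.1 = G.ends e ∧ B j h = true
      · obtain ⟨j, h1, h2⟩ := hj
        refine ⟨j.1, h1, ?_⟩
        unfold Lf
        rw [(hgood j.1 j.2).1]
        simp only [j.2, dif_pos]
        rw [if_pos h2]
      · refine ⟨e, rfl, ?_⟩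
        unfold Lf
        rw [he]
        simp only [if_true]
        rw [if_neg hj]
    · refine ⟨e, rfl, ?_⟩
      unfold Lf
      rw [he]
      simp only [ht, if_false]

end Q130.RW
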