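import Pool.Agent.Q130.RW.Path

set_option autoImplicit false

/-!
# Fans: the uncoloured edges can be moved to full parallel classes
-/

namespace Q130.RW

open Pool.Agent.W998.KG
open Pool.Agent.Results.MP_633d19_co.SmallDegree
open Pool.Agent.Results.MP_633d19_co.SmallDegree.MGraph

variable {V E : Type}

/-- A fan at `x` with vertices `w 0, ..., w n` and edges `g 0, ..., g n`. -/
structure Fn (G : MGraph V E) {k : ℕ} (c : E → Option (Fin k)) (x : V) (n : ℕ) (w : ℕ → V)
    (g : ℕ → E) : Prop where
  inj : ∀ i ≤ n, ∀ j ≤ n, w i = w j → i = j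
  ed : ∀ i ≤ n, G.ends (g i) = s(x, w i)
  un : c (g 0) = none
  col : ∀ i ≤ n, 1 ≤ i → ∃ a, c (g i) = some a ∧ ∃ j < i, G.Miss c (w j) a

theorem ne_of_ends (G : MGraph V E) {e : E} {x y : V} (h : G.ends e = s(x, y)) : x ≠ y := by
  rintro rfl
  exact G.loopless e (by rw [h]; exact Sym2.mk_isDiag_iff.2 rfl)

theorem pp_none [DecidableEq E] {G : MGraph V E} {k : ℕ} {c : E → Option (Fin k)} (hc : G.PP c)
    (f : E) : G.PP (Function.update c f none) := by
  intro e e' v a he he' h1 h2
  have h3 : e ≠ f := by rintro rfl; rw [Function.update_self] at h1; simp at h1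
  have h4 : e' ≠ f := by rintro rfl; rw [Function.update_self] at h2; simp at h2
  rw [Function.update_of_ne h3] at h1
  rw [Function.update_of_ne h4] at h2
  exact hc e e' v a he he' h1 h2

/-- State of the shifting process. -/
structure St (G : MGraph V E) {k : ℕ} (c c' : E → Option (Fin k)) (g : ℕ → E) (j : ℕ) : Prop where
  pp : G.PP c'
  old : ∀ e, (∀ t ≤ j, e ≠ g t) → c' e = c e
  non : ∀ e, c' e = none ↔ (c e = none ∧ e ≠ g 0) ∨ e = g j

theorem fan_step {G : MGraph V E} {k : ℕ} {c : E → Option (Fin k)} {x : V} {n : ℕ} {w : ℕ → V}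
    {g : ℕ → E} (hF : Fn G c x n w g) {j : ℕ} (hj : j ≤ n) {c' : E → Option (Fin k)}
    (hS : St G c c' g j) {f : E} (hfx : x ∈ G.ends f) (hfg : ∀ t ≤ j, f ≠ g t) {a : Fin k}
    (hfa : c f = some a) (hmiss : G.Miss c (w j) a) :
    ∃ c'' : E → Option (Fin k), G.PP c'' ∧ (∀ e, (∀ t ≤ j, e ≠ g t) → e ≠ f → c'' e = c e) ∧
      (∀ e, c'' e = none ↔ (c e = none ∧ e ≠ g 0) ∨ e = f) := by
  classical
  have hfa' : c' f = some a := by rw [hS.old f hfg, hfa]
  have hgj : c' (g j) = none := (hS.non _).2 (Or.inr rfl)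
  have hgf : g j ≠ f := fun h => hfg j le_rfl h.symm
  let c1 : E → Option (Fin k) := Function.update c' f none
  have hpp1 : G.PP c1 := pp_none hS.pp f
  have hx1 : G.Miss c1 x a := by
    intro e he hce
    by_cases h : e = f
    · rw [h] at hce
      simp only [c1, Function.update_self] at hce
      simp at hce
    · simp only [c1, Function.update_of_ne h] at hce
      exact h (hS.pp e f x a he hfx hce hfa')
  have hw1 : G.Miss c1 (w j) a := by
    intro e he hce
    by_cases h : e = f
    · rw [h] at hce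
      simp only [c1, Function.update_self] at hce
      simp at hce
    · simp only [c1, Function.update_of_ne h] at hce
      by_cases h2 : ∃ t ≤ j, e = g t
      · obtain ⟨t, ht, rfl⟩ := h2
        rw [hF.ed t (ht.trans hj), Sym2.mem_iff] at he
        rcases he with he | he
        · exact ne_of_ends G (hF.ed j hj) he.symm
        · have h3 := hF.inj j hj t (ht.trans hj) he
          rw [← h3, hgj] at hce
          simp at hce
      · push Not at h2
        rw [hS.old e h2] at hce
        exact hmiss e he hce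
  refine ⟨Function.update c1 (g j) (some a),
    Pool.Agent.W411.KG.pp_update hpp1 (g j) x (w j) (hF.ed j hj) a hx1 hw1, ?_, ?_⟩
  · intro e h1 h2
    rw [Function.update_of_ne (h1 j le_rfl)]
    simp only [c1]
    rw [Function.update_of_ne h2, hS.old e h1]
  · intro e
    by_cases h1 : e = g j
    · subst h1
      rw [Function.update_self]
      constructor
      · intro h; simp at h
      · rintro (⟨h2, h3⟩ | h2)
        · exfalso
          have hj0 : j ≠ 0 := by rintro rfl; exact h3 rfl
          obtain ⟨a', ha', _⟩ := hF.col j hj (by omega)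
          rw [ha'] at h2
          simp at h2
        · exact absurd h2 hgf
    · rw [Function.update_of_ne h1]
      by_cases h2 : e = f
      · subst h2
        simp [c1]
      · simp only [c1]
        rw [Function.update_of_ne h2, hS.non e]
        simp [h1, h2]

theorem fan_state {G : MGraph V E} {k : ℕ} {c : E → Option (Fin k)} (hc : G.PP c) {x : V} {n : ℕ}
    {w : ℕ → V} {g : ℕ → E} (hF : Fn G c x n w g) :
    ∀ i ≤ n, ∃ c' : E → Option (Fin k), St G c c' g i := by
  intro i
  induction i using Nat.strong_induction_on with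
  | _ i IH =>
    intro hi
    rcases Nat.eq_zero_or_pos i with h0 | h0
    · subst h0
      refine ⟨c, hc, fun _ _ => rfl, fun e => ?_⟩
      constructor
      · intro h
        by_cases h1 : e = g 0
        · exact Or.inr h1
        · exact Or.inl ⟨h, h1⟩
      · rintro (⟨h, _⟩ | h)
        · exact h
        · rw [h]; exact hF.un
    · obtain ⟨a, ha, j, hji, hmiss⟩ := hF.col i hi h0
      obtain ⟨c', hS⟩ := IH j hji (by omega)
      have hgne : ∀ t ≤ j, g i ≠ g t := by
        intro t ht h
        have h1 := hF.ed i hi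
        rw [h, hF.ed t (by omega), Sym2.congr_right] at h1
        have := hF.inj t (by omega) i hi h1
        omega
      obtain ⟨c'', h1, h2, h3⟩ := fan_step hF (by omega : j ≤ n) hS (f := g i)
        (by rw [hF.ed i hi]; simp) hgne ha hmiss
      refine ⟨c'', h1, ?_, h3⟩
      intro e he
      exact h2 e (fun t ht => he t (by omega)) (he i le_rfl)

/-- Moving the uncoloured edge along a fan. -/
theorem fan_shift {G : MGraph V E} {k : ℕ} {c : E → Option (Fin k)} (hc : G.PP c) {x : V} {n : ℕ}
    {w : ℕ → V} {g : ℕ → E} (hF : Fn G c x n w g) {f : E} (hfx : x ∈ G.ends f)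
    {a : Fin k} (hfa : c f = some a) (hmiss : ∃ j ≤ n, G.Miss c (w j) a) :
    ∃ c' : E → Option (Fin k), G.PP c' ∧
      (∀ e, c' e = none ↔ (c e = none ∧ e ≠ g 0) ∨ e = f) := by
  obtain ⟨j, hj, hm⟩ := hmiss
  by_cases h : ∃ t ≤ n, f = g t
  · obtain ⟨t, ht, rfl⟩ := h
    obtain ⟨c', hS⟩ := fan_state hc hF t ht
    exact ⟨c', hS.pp, hS.non⟩
  · push Not at h
    obtain ⟨c', hS⟩ := fan_state hc hF j hj
    obtain ⟨c'', h1, _, h3⟩ := fan_step hF hj hS hfx (fun t ht => h t (by omega)) hfa hm
    exact ⟨c'', h1, h3⟩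

theorem fn_bound [Finite V] {G : MGraph V E} {k n : ℕ} {c : E → Option (Fin k)} {x : V}
    {w : ℕ → V} {g : ℕ → E} (h : Fn G c x n w g) : n ≤ Nat.card V := by
  have hinj : Function.Injective (fun i : Fin (n + 1) => w i) := by
    intro i j hij
    exact Fin.ext (h.inj i (by omega) j (by omega) hij)
  have h1 := Nat.card_le_card_of_injective _ hinj
  rw [Nat.card_eq_fintype_card, Fintype.card_fin] at h1
  omega

/-- A closed fan exists. -/
theorem fan_closed [Finite V] (G : MGraph V E) {k : ℕ} {c : E → Option (Fin k)} {x y : V}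
    {e0 : E} (he0 : c e0 = none) (hends : G.ends e0 = s(x, y)) :
    ∃ (n : ℕ) (w : ℕ → V) (g : ℕ → E), Fn G c x n w g ∧ g 0 = e0 ∧ w 0 = y ∧
      ∀ e z a, G.ends e = s(x, z) → c e = some a → (∃ j ≤ n, G.Miss c (w j) a) →
        ∃ i ≤ n, z = w i := by
  classical
  obtain ⟨n, ⟨w, g, hF, hg0, hw0⟩, hmax⟩ := exists_max
    (fun n => ∃ (w : ℕ → V) (g : ℕ → E), Fn G c x n w g ∧ g 0 = e0 ∧ w 0 = y) 0
    ⟨fun _ => y, fun _ => e0, ⟨by intro i hi j hj _; omega, fun _ _ => hends, he0,
      by intro i hi h1; omega⟩, rfl, rfl⟩ (Nat.card V)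
    (fun n h => by
      obtain ⟨_, _, h, _, _⟩ := h
      exact fn_bound h)
  refine ⟨n, w, g, hF, hg0, hw0, ?_⟩
  intro e z a hez hca hm
  by_contra hcon
  push Not at hcon
  have hu : ∀ j, j ≤ n → Function.update w (n + 1) z j = w j := fun j hj =>
    Function.update_of_ne (by omega) _ _
  have hu' : ∀ j, j ≤ n → Function.update g (n + 1) e j = g j := fun j hj =>
    Function.update_of_ne (by omega) _ _
  have h5 : Fn G c x (n + 1) (Function.update w (n + 1) z) (Function.update g (n + 1) e) := by
    refine ⟨?_, ?_, ?_, ?_⟩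
    · intro p hp q hq hpq
      rcases Nat.lt_or_ge p (n + 1) with h1 | h1
      · rcases Nat.lt_or_ge q (n + 1) with h2 | h2
        · rw [hu p (by omega), hu q (by omega)] at hpq
          exact hF.inj p (by omega) q (by omega) hpq
        · have h3 : q = n + 1 := by omega
          subst h3
          rw [hu p (by omega), Function.update_self] at hpq
          exact absurd hpq.symm (hcon p (by omega))
      · have h3 : p = n + 1 := by omega
        subst h3
        rcases Nat.lt_or_ge q (n + 1) with h2 | h2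
        · rw [hu q (by omega), Function.update_self] at hpq
          exact absurd hpq (hcon q (by omega))
        · omega
    · intro p hp
      rcases Nat.lt_or_ge p (n + 1) with h1 | h1
      · rw [hu p (by omega), hu' p (by omega)]
        exact hF.ed p (by omega)
      · have h3 : p = n + 1 := by omega
        subst h3
        rw [Function.update_self, Function.update_self]
        exact hez
    · rw [hu' 0 (by omega)]
      exact hF.un
    · intro p hp h1p
      rcases Nat.lt_or_ge p (n + 1) with h1 | h1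
      · obtain ⟨b, hb, j, hj, hmj⟩ := hF.col p (by omega) h1p
        refine ⟨b, ?_, j, hj, ?_⟩
        · rw [hu' p (by omega)]
          exact hb
        · rw [hu j (by omega)]
          exact hmj
      · have h3 : p = n + 1 := by omega
        subst h3
        obtain ⟨j, hj, hmj⟩ := hm
        refine ⟨a, ?_, j, by omega, ?_⟩
        · rw [Function.update_self]
          exact hca
        · rw [hu j hj]
          exact hmj
  have h6 := hmax (n + 1) ⟨_, _, h5, by rw [hu' 0 (by omega)]; exact hg0,
    by rw [hu 0 (by omega)]; exact hw0⟩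
  omega

/-- The missing colours at a vertex. -/
noncomputable def mset (G : MGraph V E) {k : ℕ} (c : E → Option (Fin k)) (v : V) :
    Finset (Fin k) := by
  classical exact Finset.univ.filter (fun a => G.Miss c v a)

theorem mem_mset (G : MGraph V E) {k : ℕ} (c : E → Option (Fin k)) (v : V) (a : Fin k) :
    a ∈ mset G c v ↔ G.Miss c v a := by
  classical
  unfold mset
  simp

theorem mset_card [Finite E] (G : MGraph V E) {k : ℕ} {c : E → Option (Fin k)} (hc : G.PP c)
    (v : V) : (mset G c v).card + G.degree v = k + {e | v ∈ G.ends e ∧ c e = none}.ncard := by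
  classical
  have h1 : (mset G c v).card + (mset G c v)ᶜ.card = k := by
    rw [Finset.card_add_card_compl, Fintype.card_fin]
  have h2 : (mset G c v)ᶜ.card = {e | v ∈ G.ends e ∧ c e ≠ none}.ncard := by
    have hex : ∀ a ∈ (mset G c v)ᶜ, ∃ e, v ∈ G.ends e ∧ c e = some a := by
      intro a ha
      rw [Finset.mem_compl, mem_mset] at ha
      unfold Miss at ha
      push Not at ha
      exact ha
    choose F hF using hex
    rw [← Set.ncard_coe_finset]
    refine Set.ncard_congr (fun a ha => F a (Finset.mem_coe.1 ha)) ?_ ?_ ?_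
    · intro a ha
      obtain ⟨h3, h4⟩ := hF a ha
      exact ⟨h3, by rw [h4]; simp⟩
    · intro a b ha hb hab
      have h3 := (hF a ha).2
      have h4 := (hF b hb).2
      rw [hab, h4] at h3
      exact (Option.some.inj h3).symm
    · rintro e ⟨he, hce⟩
      obtain ⟨a, ha⟩ := Option.ne_none_iff_exists'.mp hce
      have hmem : a ∈ (mset G c v)ᶜ := by
        rw [Finset.mem_compl, mem_mset]
        intro h
        exact h e he ha
      refine ⟨a, hmem, ?_⟩
      exact hc _ _ v a (hF a hmem).1 he (hF a hmem).2 ha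
  have h3 : G.degree v = {e | v ∈ G.ends e ∧ c e ≠ none}.ncard +
      {e | v ∈ G.ends e ∧ c e = none}.ncard := by
    unfold degree
    rw [← Set.ncard_union_eq]
    · rw [show {e | v ∈ G.ends e ∧ c e ≠ none} ∪ {e | v ∈ G.ends e ∧ c e = none} =
        {e | v ∈ G.ends e} by ext e; simp only [Set.mem_union, Set.mem_ofPred_eq]; tauto]
      rfl
    · rw [Set.disjoint_left]
      rintro e ⟨_, h4⟩ ⟨_, h5⟩
      exact h4 h5
  omega

/-- In a maximum colouring, an uncoloured edge can be moved to a full parallel class. -/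
theorem fan_full [Finite V] [Finite E] (G : MGraph V E) {D k : ℕ} (hD : 1 ≤ D)
    (ty : E → Option (Fin D)) (hty : ∀ e f, G.ends e = G.ends f → ty e = ty f → e = f)
    (hdeg : ∀ u, G.degree u + D ≤ k) {c : E → Option (Fin k)} (hc : MaxC G c) {e0 : E}
    (he0 : c e0 = none) :
    ∃ s : Sym2 V, (∀ o : Option (Fin D), ∃ e, ty e = o ∧ G.ends e = s ∧ c e ≠ none) ∧
      ∃ c' : E → Option (Fin k), G.PP c' ∧
        ∀ e, c' e = none ↔ (c e = none ∧ e ≠ e0) ∨ (ty e = none ∧ G.ends e = s) := by
  classical
  obtain ⟨X, hX0, hX1, hX2⟩ := closure_exists hc (fun u => by have := hdeg u; omega) he0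
  obtain ⟨x, y, hxy⟩ : ∃ x y, G.ends e0 = s(x, y) := by
    induction h : G.ends e0 with
    | h x y => exact ⟨x, y, rfl⟩
  obtain ⟨n, w, g, hF, hg0, hw0, hclos⟩ := fan_closed G he0 hxy
  have hxX : x ∈ X := hX0 x (by rw [hxy]; simp)
  have hwX : ∀ i ≤ n, w i ∈ X := by
    intro i
    induction i using Nat.strong_induction_on with
    | _ i IH =>
      intro hi
      rcases Nat.eq_zero_or_pos i with h0 | h0
      · rw [h0, hw0]; exact hX0 y (by rw [hxy]; simp)
      · obtain ⟨a, ha, j, hj, hm⟩ := hF.col i hi h0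
        exact hX2 (g i) a x (by rw [hF.ed i hi]; simp) ha hxX ⟨w j, IH j hj (by omega), hm⟩ _
          (by rw [hF.ed i hi]; simp)
  have hxw : ∀ i ≤ n, x ≠ w i := fun i hi => ne_of_ends G (hF.ed i hi)
  -- the set of colours missing at the fan
  let A : Finset (Fin k) := (Finset.range (n + 1)).biUnion (fun i => mset G c (w i))
  have hAmem : ∀ a, a ∈ A ↔ ∃ i ≤ n, G.Miss c (w i) a := by
    intro a
    simp only [A, Finset.mem_biUnion, Finset.mem_range, mem_mset]
    constructor
    · rintro ⟨i, hi, h⟩; exact ⟨i, by omega, h⟩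
    · rintro ⟨i, hi, h⟩; exact ⟨i, by omega, h⟩
  have hAcard : A.card = ∑ i ∈ Finset.range (n + 1), (mset G c (w i)).card := by
    apply Finset.card_biUnion
    intro i hi j hj hij
    show Disjoint (mset G c (w i)) (mset G c (w j))
    rw [Finset.disjoint_left]
    intro a h1 h2
    rw [mem_mset] at h1 h2
    simp only [Finset.mem_coe, Finset.mem_range] at hi hj
    exact hij (hF.inj i (by omega) j (by omega)
      (hX1 _ (hwX i (by omega)) _ (hwX j (by omega)) a h1 h2))
  have hm1 : ∀ i, D ≤ (mset G c (w i)).card := by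
    intro i
    have h1 := mset_card G hc.pp (w i)
    have h2 := hdeg (w i)
    omega
  have hm2 : D + 1 ≤ (mset G c (w 0)).card := by
    have h1 := mset_card G hc.pp (w 0)
    have h2 := hdeg (w 0)
    have h3 : 1 ≤ {e | w 0 ∈ G.ends e ∧ c e = none}.ncard := by
      have h4 : 0 < {e | w 0 ∈ G.ends e ∧ c e = none}.ncard := by
        rw [Set.ncard_pos (Set.toFinite _)]
        exact ⟨e0, by rw [hw0, hxy]; simp, he0⟩
      exact h4
    omega
  have hAbig : (n + 1) * D < A.card := by
    rw [hAcard, Finset.sum_range_succ']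
    have h1 : n * D ≤ ∑ i ∈ Finset.range n, (mset G c (w (i + 1))).card := by
      have := Finset.card_nsmul_le_sum (Finset.range n)
        (fun i => (mset G c (w (i + 1))).card) D (fun i _ => hm1 (i + 1))
      simpa using this
    have h2 : (n + 1) * D = n * D + D := by ring
    omega
  -- edges at `x` with these colours
  have hex : ∀ a ∈ A, ∃ e, ∃ i ≤ n, c e = some a ∧ G.ends e = s(x, w i) := by
    intro a ha
    obtain ⟨i, hi, hm⟩ := (hAmem a).1 ha
    have hnx : ¬ G.Miss c x a := fun h => hxw i hi (hX1 x hxX _ (hwX i hi) a h hm)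
    obtain ⟨e, h1, h2⟩ := G.exists_of_not_miss hc.pp hnx
    obtain ⟨i', hi', hz⟩ := hclos e _ a h2 h1 ⟨i, hi, hm⟩
    exact ⟨e, i', hi', h1, by rw [h2, hz]⟩
  haveI : Nonempty E := ⟨e0⟩
  choose! F I hI hFc hFe using hex
  obtain ⟨i, hi, hfib⟩ := Finset.exists_lt_card_fiber_of_mul_lt_card_of_maps_to
    (s := A) (t := Finset.range (n + 1)) (f := I) (n := D)
    (fun a ha => Finset.mem_range.2 (Nat.lt_succ_of_le (hI a ha)))
    (by rw [Finset.card_range]; exact hAbig)
  rw [Finset.mem_range] at hi
  have hinj : Set.InjOn (fun a => ty (F a)) (A.filter (fun a => I a = i)) := by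
    intro a ha b hb hab
    simp only [Finset.coe_filter, Set.mem_ofPred_eq] at ha hb
    have h1 : F a = F b := hty _ _ (by rw [hFe a ha.1, hFe b hb.1, ha.2, hb.2]) hab
    have h2 := hFc a ha.1
    rw [h1, hFc b hb.1] at h2
    exact (Option.some.inj h2).symm
  have himg : (A.filter (fun a => I a = i)).image (fun a => ty (F a)) = Finset.univ := by
    apply Finset.eq_univ_of_card
    rw [Finset.card_image_of_injOn hinj, Fintype.card_option, Fintype.card_fin]
    apply le_antisymm
    · rw [← Finset.card_image_of_injOn hinj]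
      have := Finset.card_le_univ ((A.filter (fun a => I a = i)).image (fun a => ty (F a)))
      rwa [Fintype.card_option, Fintype.card_fin] at this
    · exact hfib
  have hall : ∀ o : Option (Fin D), ∃ a ∈ A, ty (F a) = o ∧ G.ends (F a) = s(x, w i) := by
    intro o
    have : o ∈ (A.filter (fun a => I a = i)).image (fun a => ty (F a)) := by
      rw [himg]; exact Finset.mem_univ _
    obtain ⟨a, ha, hao⟩ := Finset.mem_image.1 this
    rw [Finset.mem_filter] at ha
    exact ⟨a, ha.1, hao, by rw [hFe a ha.1, ha.2]⟩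
  refine ⟨s(x, w i), ?_, ?_⟩
  · intro o
    obtain ⟨a, ha, h1, h2⟩ := hall o
    exact ⟨F a, h1, h2, by rw [hFc a ha]; simp⟩
  · obtain ⟨a, ha, h1, h2⟩ := hall none
    obtain ⟨c', h3, h4⟩ := fan_shift hc.pp hF (f := F a) (by rw [h2]; simp) (hFc a ha)
      ((hAmem a).1 ha)
    refine ⟨c', h3, fun e => ?_⟩
    rw [h4 e, hg0]
    constructor
    · rintro (h | h)
      · exact Or.inl h
      · right; rw [h]; exact ⟨h1, h2⟩
    · rintro (h | ⟨h, h'⟩)
      · exact Or.inl h
      · right; exact hty _ _ (by rw [h', h2]) (by rw [h, h1])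

/-- There is a maximum colouring all of whose uncoloured edges have type `none` and lie in a
full parallel class, the other edges of which are coloured. -/
theorem good_exists [Finite V] [Finite E] (G : MGraph V E) {D k : ℕ} (hD : 1 ≤ D)
    (ty : E → Option (Fin D)) (hty : ∀ e f, G.ends e = G.ends f → ty e = ty f → e = f)
    (hdeg : ∀ u, G.degree u + D ≤ k) :
    ∃ c : E → Option (Fin k), MaxC G c ∧ ∀ e, c e = none → ty e = none ∧
      ∀ t : Fin D, ∃ e', ty e' = some t ∧ G.ends e' = G.ends e ∧ c e' ≠ none := by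
  classical
  let Good : (E → Option (Fin k)) → E → Prop := fun c e => ty e = none ∧
      ∀ t : Fin D, ∃ e', ty e' = some t ∧ G.ends e' = G.ends e ∧ c e' ≠ none
  have h0 : ∃ n, ∃ c : E → Option (Fin k), MaxC G c ∧ {e | c e = none ∧ ¬ Good c e}.ncard = n := by
    obtain ⟨c, hc⟩ := maxC_exists G k
    exact ⟨_, c, hc, rfl⟩
  obtain ⟨c, hc, hn⟩ := Nat.find_spec h0
  refine ⟨c, hc, ?_⟩
  by_contra hcon
  push Not at hcon
  obtain ⟨e0, he0, hbad⟩ := hcon
  have hbad' : ¬ Good c e0 := by
    rintro ⟨h1, h2⟩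
    obtain ⟨t, ht⟩ := hbad h1
    obtain ⟨e', h3, h4, h5⟩ := h2 t
    exact h5 (ht e' h3 h4)
  obtain ⟨s, hs, c', hpp, hnon⟩ := fan_full G hD ty hty hdeg hc he0
  obtain ⟨f, hf1, hf2, hf3⟩ := hs none
  have hset : {e | c' e = none} = insert f ({e | c e = none} \ {e0}) := by
    ext e
    simp only [Set.mem_ofPred_eq, Set.mem_insert_iff, Set.mem_sdiff, Set.mem_singleton_iff]
    rw [hnon e]
    constructor
    · rintro (h | ⟨h, h'⟩)
      · exact Or.inr h
      · left; exact hty _ _ (by rw [h', hf2]) (by rw [h, hf1])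
    · rintro (h | h)
      · right; rw [h]; exact ⟨hf1, hf2⟩
      · exact Or.inl h
  have hunc : unc c' = unc c := by
    unfold unc
    rw [hset, Set.ncard_insert_of_notMem (by
      rintro ⟨h, _⟩
      exact hf3 h) (Set.toFinite _), Set.ncard_sdiff_singleton_add_one (by exact he0)
      (Set.toFinite _)]
  have hmax' : MaxC G c' := ⟨hpp, fun c'' h => by rw [hunc]; exact hc.max c'' h⟩
  have hgood : ∀ e, c' e = none → e ≠ f → c e = none ∧ e ≠ e0 := by
    intro e he hef
    have : e ∈ {e | c' e = none} := he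
    rw [hset] at this
    rcases this with h | h
    · exact absurd h hef
    · exact h
  have hcol : ∀ e t, ty e = some t → c e ≠ none → c' e ≠ none := by
    intro e t h1 h2 h3
    rcases (hnon e).1 h3 with h | h
    · exact h2 h.1
    · rw [h1] at h; simp at h
  have hlt : {e | c' e = none ∧ ¬ Good c' e} ⊂ {e | c e = none ∧ ¬ Good c e} := by
    refine ⟨?_, ?_⟩
    · rintro e ⟨h1, h2⟩
      have hef : e ≠ f := by
        rintro rfl
        apply h2
        refine ⟨hf1, fun t => ?_⟩
        obtain ⟨e', h3, h4, h5⟩ := hs (some t)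
        exact ⟨e', h3, by rw [h4, hf2], hcol e' t h3 h5⟩
      obtain ⟨h3, h4⟩ := hgood e h1 hef
      refine ⟨h3, fun h5 => h2 ⟨h5.1, fun t => ?_⟩⟩
      obtain ⟨e', h6, h7, h8⟩ := h5.2 t
      exact ⟨e', h6, h7, hcol e' t h6 h8⟩
    · intro h
      obtain ⟨h1, h2⟩ := h ⟨he0, hbad'⟩
      by_cases hef : e0 = f
      · rw [hef] at he0
        exact hf3 he0
      · exact (hgood e0 h1 hef).2 rfl
  have h1 := Set.ncard_lt_ncard hlt (Set.toFinite _)
  have h2 := Nat.find_min' h0 ⟨c', hmax', rfl⟩
  omega

end Q130.RW
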