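import Pool.Agent.Q130.RW.Fan

set_option autoImplicit false

/-!
# Colouring the lifts of a multigraph
-/

namespace Q130.RW

open Pool.Agent.W998.KG
open Pool.Agent.Results.MP_633d19_co.SmallDegree
open Pool.Agent.Results.MP_633d19_co.SmallDegree.MGraph

variable {V E : Type}

/-- Transport of two-valued functions along a path of involutions. -/
theorem transport {U : Type} (l : ℕ) (v : ℕ → V) (hinj : ∀ i ≤ l, ∀ j ≤ l, v i = v j → i = j)
    (L : ℕ → U → U) (hL : ∀ i h, L i (L i h) = h) :
    ∃ ρ : Equiv.Perm U, ∀ χ : U → Bool, ∃ s : U → V → Bool, (∀ h, s h (v 0) = χ h) ∧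
      (∀ h, s h (v l) = χ (ρ h)) ∧ ∀ i < l, ∀ h, s h (v i) = s (L i h) (v (i + 1)) := by
  classical
  let Lp : ℕ → Equiv.Perm U := fun i => ⟨L i, L i, hL i, hL i⟩
  let R : ℕ → Equiv.Perm U := fun n => Nat.rec 1 (fun i r => r * Lp i) n
  have hR : ∀ i h, R (i + 1) h = R i (L i h) := fun i h => rfl
  refine ⟨R l, fun χ => ?_⟩
  let s : U → V → Bool := fun h u => if H : ∃ i ≤ l, u = v i then χ (R H.choose h) else false
  have hs : ∀ i ≤ l, ∀ h, s h (v i) = χ (R i h) := by
    intro i hi h
    have H : ∃ i' ≤ l, v i = v i' := ⟨i, hi, rfl⟩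
    simp only [s]
    rw [dif_pos H]
    have h1 := H.choose_spec
    rw [hinj _ h1.1 i hi h1.2.symm]
  refine ⟨s, fun h => ?_, fun h => hs l le_rfl h, ?_⟩
  · rw [hs 0 (Nat.zero_le _)]
    rfl
  · intro i hi h
    rw [hs i hi.le, hs (i + 1) hi, hR, hL]

/-- The path edges are all the edges of the two colours at the path. -/
theorem path_edges {G : MGraph V E} {k : ℕ} {c : E → Option (Fin k)} (hc : G.PP c)
    {a b : Fin k} {x y : V} (hxy : x ≠ y)
    (hx : G.Miss c x a) (hy : G.Miss c y b) {l : ℕ} {v : ℕ → V} (h0 : v 0 = x) (hl : v l = y)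
    (hed : ∀ i < l, ∃ e, c e = some (altc a b i) ∧ G.ends e = s(v i, v (i + 1)))
    {e : E} {a' : Fin k} (ha' : a' = a ∨ a' = b) (hca : c e = some a') {i : ℕ} (hi : i ≤ l)
    (hie : v i ∈ G.ends e) :
    ∃ i' < l, c e = some (altc a b i') ∧ G.ends e = s(v i', v (i' + 1)) := by
  have hl0 : l ≠ 0 := by
    rintro rfl
    exact hxy (h0.symm.trans hl)
  -- forward edge
  have fwd : i < l → a' = altc a b i → ∃ i' < l, c e = some (altc a b i') ∧
      G.ends e = s(v i', v (i' + 1)) := by
    intro h1 h2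
    obtain ⟨f, hf1, hf2⟩ := hed i h1
    have : e = f := hc e f (v i) a' hie (by rw [hf2]; simp) hca (by rw [hf1, h2])
    subst this
    exact ⟨i, h1, hf1, hf2⟩
  have bwd : ∀ i', i = i' + 1 → a' = altc a b i' → ∃ i' < l, c e = some (altc a b i') ∧
      G.ends e = s(v i', v (i' + 1)) := by
    intro i' h1 h2
    subst h1
    obtain ⟨f, hf1, hf2⟩ := hed i' (by omega)
    have : e = f := hc e f (v (i' + 1)) a' hie (by rw [hf2]; simp) hca (by rw [hf1, h2])
    subst this
    exact ⟨i', by omega, hf1, hf2⟩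
  rcases Nat.eq_zero_or_pos i with hi0 | hi0
  · subst hi0
    rcases ha' with h | h
    · exfalso
      rw [h0] at hie
      exact hx e hie (by rw [hca, h])
    · exact fwd (by omega) h
  · obtain ⟨i', rfl⟩ : ∃ i', i = i' + 1 := ⟨i - 1, by omega⟩
    rcases Nat.lt_or_ge (i' + 1) l with h1 | h1
    · rcases altc_succ a b i' with ⟨h3, h4⟩ | ⟨h3, h4⟩ <;> rcases ha' with h5 | h5
      · exact fwd h1 (by rw [h5, h4])
      · exact bwd i' rfl (by rw [h5, h3])
      · exact bwd i' rfl (by rw [h5, h3])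
      · exact fwd h1 (by rw [h5, h4])
    · have h2 : l = i' + 1 := by omega
      subst h2
      have hab' : altc a b i' = a := by
        rcases altc_or a b i' with h | h
        · exact h
        · exfalso
          obtain ⟨f, hf1, hf2⟩ := hed i' (by omega)
          refine hy f ?_ (by rw [hf1, h])
          rw [hf2, hl]
          simp
      rcases ha' with h5 | h5
      · exact bwd i' rfl (by rw [h5, hab'])
      · exfalso
        rw [hl] at hie
        exact hy e hie (by rw [hca, h5])

/-- The choice at one uncoloured edge. -/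
theorem choose_chi {U : Type} (m : U → U) (hm : ∀ h, m (m h) = h) (hm' : ∀ h, m h ≠ h)
    (ρ : Equiv.Perm U) :
    ∃ (χ : U → Bool) (z : U → Bool), (∀ h, z (m h) = z h) ∧
      ∀ h, χ h ≠ χ (ρ (if z h = true then m h else h)) := by
  obtain ⟨χ, h1, h2⟩ := two_inv m (fun x => ρ (m (ρ.symm x))) hm hm'
    (fun x => by simp [hm]) (fun x h => by
      have h3 := congrArg ρ.symm h
      simp only [Equiv.symm_apply_apply] at h3
      exact hm' _ h3)
  have h3 : ∀ h, χ (ρ (m h)) = !(χ (ρ h)) := by
    intro h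
    have := h2 (ρ h)
    simpa using this
  refine ⟨χ, fun h => decide (χ (ρ h) = χ h), ?_, ?_⟩
  · intro h
    show decide (χ (ρ (m h)) = χ (m h)) = decide (χ (ρ h) = χ h)
    rw [h3, h1]
    cases χ h <;> cases χ (ρ h) <;> rfl
  · intro h
    by_cases h4 : χ (ρ h) = χ h
    · simp only [h4, decide_true, if_true]
      rw [h3, h4]
      cases χ h <;> simp
    · simp only [h4, decide_false]
      intro h5
      exact h4 h5.symm

end Q130.RW
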