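import Pool.Agent.Q130.RW.Tash

set_option autoImplicit false

/-!
# Two-coloured paths
-/

namespace Q130.RW

open Pool.Agent.W998.KG
open Pool.Agent.Results.MP_633d19_co.SmallDegree
open Pool.Agent.Results.MP_633d19_co.SmallDegree.MGraph

variable {V E : Type}

/-- alternating colours, `b` first -/
def altc {k : ℕ} (a b : Fin k) (i : ℕ) : Fin k := if i % 2 = 0 then b else a

theorem altc_or {k : ℕ} (a b : Fin k) (i : ℕ) : altc a b i = a ∨ altc a b i = b := by
  unfold altc; split_ifs <;> simp

theorem altc_succ {k : ℕ} (a b : Fin k) (i : ℕ) :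
    (altc a b i = b ∧ altc a b (i + 1) = a) ∨ (altc a b i = a ∧ altc a b (i + 1) = b) := by
  unfold altc
  rcases Nat.mod_two_eq_zero_or_one i with h | h
  · left
    rw [if_pos h, if_neg (by omega)]
    exact ⟨rfl, rfl⟩
  · right
    rw [if_neg (by omega), if_pos (by omega)]
    exact ⟨rfl, rfl⟩

/-- The sequence of vertices. -/
noncomputable def seq (G : MGraph V E) {k : ℕ} (c : E → Option (Fin k)) (a b : Fin k) (x : V) :
    ℕ → V
  | 0 => x
  | i + 1 => G.nb c (altc a b i) (seq G c a b x i)

theorem seq_inj (G : MGraph V E) {k : ℕ} {c : E → Option (Fin k)} (hc : G.PP c) {a b : Fin k}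
    (hab : a ≠ b) {x : V} (hx : G.Miss c x a) :
    ∀ j, (∀ i < j, ¬ G.Miss c (seq G c a b x i) (altc a b i)) →
      ∀ i < j, seq G c a b x i ≠ seq G c a b x j := by
  intro j
  induction j using Nat.strong_induction_on with
  | _ j IH =>
    intro hj i hij heq
    obtain ⟨j', rfl⟩ : ∃ j', j = j' + 1 := ⟨j - 1, by omega⟩
    -- edges along the sequence
    have hedge : ∀ t < j' + 1, ∃ e, c e = some (altc a b t) ∧
        G.ends e = s(seq G c a b x t, seq G c a b x (t + 1)) := fun t ht =>
      G.exists_of_not_miss hc (hj t ht)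
    have hloop : ∀ t < j' + 1, seq G c a b x t ≠ seq G c a b x (t + 1) := by
      intro t ht h
      obtain ⟨e, _, he⟩ := hedge t ht
      apply G.loopless e
      rw [he, h]
      exact Sym2.mk_isDiag_iff.2 rfl
    have IH' : ∀ t < j', seq G c a b x t ≠ seq G c a b x j' := fun t ht =>
      IH j' (by omega) (fun i hi => hj i (by omega)) t ht
    -- the last edge
    obtain ⟨e, he1, he2⟩ := hedge j' (by omega)
    have hlast : G.nb c (altc a b j') (seq G c a b x i) = seq G c a b x j' := by
      apply G.nb_eq hc he1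
      rw [he2, heq, Sym2.eq_swap]
    rcases Nat.eq_zero_or_pos i with hi0 | hi0
    · subst hi0
      have hb : altc a b j' = b := by
        rcases altc_or a b j' with h | h
        · exfalso
          refine hx e ?_ (by rw [he1, h])
          have : seq G c a b x (j' + 1) = x := heq.symm
          rw [he2, this]
          simp
        · exact h
      have h1 : seq G c a b x 1 = seq G c a b x j' := by
        have : seq G c a b x 1 = G.nb c (altc a b 0) (seq G c a b x 0) := rfl
        rw [this, ← hlast, hb]
        rfl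
      rcases Nat.lt_trichotomy 1 j' with h2 | h2 | h2
      · exact IH' 1 h2 h1
      · rw [← h2] at hb
        have : altc a b 1 = a := rfl
        rw [this] at hb
        exact hab hb
      · have : j' = 0 := by omega
        subst this
        exact hloop 0 (by omega) heq
    · obtain ⟨i', rfl⟩ : ∃ i', i = i' + 1 := ⟨i - 1, by omega⟩
      obtain ⟨f, hf1, hf2⟩ := hedge i' (by omega)
      have hprev : G.nb c (altc a b i') (seq G c a b x (i' + 1)) = seq G c a b x i' := by
        apply G.nb_eq hc hf1
        rw [hf2, Sym2.eq_swap]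
      by_cases h1 : altc a b j' = altc a b i'
      · rw [h1, hprev] at hlast
        exact IH' i' (by omega) hlast
      · have h2 : altc a b j' = altc a b (i' + 1) := by
          rcases altc_succ a b i' with ⟨h3, h4⟩ | ⟨h3, h4⟩ <;>
          rcases altc_or a b j' with h5 | h5 <;> simp_all
        have h3 : seq G c a b x (i' + 1 + 1) = seq G c a b x j' := by
          have : seq G c a b x (i' + 1 + 1) =
            G.nb c (altc a b (i' + 1)) (seq G c a b x (i' + 1)) := rfl
          rw [this, ← h2, hlast]
        rcases Nat.lt_trichotomy (i' + 1 + 1) j' with h4 | h4 | h4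
        · exact IH' _ h4 h3
        · rw [← h4] at h2
          rcases altc_succ a b (i' + 1) with ⟨h5, h6⟩ | ⟨h5, h6⟩
          · rw [h5, h6] at h2; exact hab h2
          · rw [h5, h6] at h2; exact hab h2.symm
        · have h5 : j' = i' + 1 := by omega
          subst h5
          exact hloop (i' + 1) (by omega) heq

/-- Two-coloured path starting at a vertex that misses one of the colours. -/
theorem path_exists [Finite V] (G : MGraph V E) {k : ℕ} {c : E → Option (Fin k)} (hc : G.PP c)
    {a b : Fin k} (hab : a ≠ b) {x : V} (hx : G.Miss c x a) :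
    ∃ (l : ℕ) (v : ℕ → V), v 0 = x ∧ (∀ i ≤ l, ∀ j ≤ l, v i = v j → i = j) ∧
      (∀ i < l, ∃ e, c e = some (altc a b i) ∧ G.ends e = s(v i, v (i + 1))) ∧
      G.Miss c (v l) (altc a b l) := by
  classical
  have hex : ∃ i, G.Miss c (seq G c a b x i) (altc a b i) := by
    by_contra hcon
    push Not at hcon
    have hinj : Function.Injective (seq G c a b x) := by
      intro i j hij
      rcases Nat.lt_trichotomy i j with h | h | h
      · exact absurd hij (seq_inj G hc hab hx j (fun t _ => hcon t) i h)
      · exact h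
      · exact absurd hij.symm (seq_inj G hc hab hx i (fun t _ => hcon t) j h)
    exact not_injective_infinite_finite _ hinj
  refine ⟨Nat.find hex, seq G c a b x, rfl, ?_, ?_, Nat.find_spec hex⟩
  · intro i hi j hj hij
    rcases Nat.lt_trichotomy i j with h | h | h
    · exact absurd hij (seq_inj G hc hab hx j
        (fun t ht => Nat.find_min hex (by omega)) i h)
    · exact h
    · exact absurd hij.symm (seq_inj G hc hab hx i
        (fun t ht => Nat.find_min hex (by omega)) j h)
  · intro i hi
    exact G.exists_of_not_miss hc (Nat.find_min hex hi)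

/-- `X` is elementary and closed. -/
structure CE (G : MGraph V E) {k : ℕ} (c : E → Option (Fin k)) (X : Set V) : Prop where
  elem : ∀ u ∈ X, ∀ w ∈ X, ∀ a, G.Miss c u a → G.Miss c w a → u = w
  clos : ∀ e a u, u ∈ G.ends e → c e = some a → u ∈ X → (∃ v ∈ X, G.Miss c v a) →
        ∀ w ∈ G.ends e, w ∈ X

/-- In closed elementary sets, a two-coloured path between missing colours. -/
theorem path_in [Finite V] {G : MGraph V E} {k : ℕ} {c : E → Option (Fin k)} (hc : G.PP c)
    {X : Set V} (hX : CE G c X) {x y : V} (hxX : x ∈ X) (hyX : y ∈ X) (hxy : x ≠ y) {a b : Fin k}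
    (hx : G.Miss c x a) (hy : G.Miss c y b) :
    ∃ (l : ℕ) (v : ℕ → V), v 0 = x ∧ v l = y ∧ (∀ i ≤ l, ∀ j ≤ l, v i = v j → i = j) ∧
      (∀ i < l, ∃ e, c e = some (altc a b i) ∧ G.ends e = s(v i, v (i + 1))) ∧
      (∀ i ≤ l, v i ∈ X) := by
  have hab : a ≠ b := by
    rintro rfl
    exact hxy (hX.elem x hxX y hyX a hx hy)
  obtain ⟨l, v, h0, hinj, hed, hlast⟩ := path_exists G hc hab hx
  have hmem : ∀ i ≤ l, v i ∈ X := by
    intro i
    induction i with
    | zero => intro _; rw [h0]; exact hxX
    | succ i ih =>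
      intro hi
      obtain ⟨e, he1, he2⟩ := hed i (by omega)
      refine hX.clos e _ (v i) (by rw [he2]; simp) he1 (ih (by omega)) ?_ _ (by rw [he2]; simp)
      rcases altc_or a b i with h | h
      · rw [h]; exact ⟨x, hxX, hx⟩
      · rw [h]; exact ⟨y, hyX, hy⟩
  have hl0 : l ≠ 0 := by
    rintro rfl
    rw [h0] at hlast
    have : altc a b 0 = b := rfl
    rw [this] at hlast
    exact hxy (hX.elem x hxX y hyX b hlast hy)
  have hvl : v l = y := by
    rcases altc_or a b l with h | h
    · exfalso
      rw [h] at hlast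
      have h1 := hX.elem _ (hmem l le_rfl) x hxX a hlast hx
      rw [← h0] at h1
      exact hl0 (hinj l le_rfl 0 (Nat.zero_le _) h1)
    · rw [h] at hlast
      exact hX.elem _ (hmem l le_rfl) y hyX b hlast hy
  exact ⟨l, v, h0, hvl, hinj, hed, hmem⟩

/-- Two intersecting closed elementary sets have an elementary union. -/
theorem union_elem [Finite V] {G : MGraph V E} {k : ℕ} {c : E → Option (Fin k)} (hc : G.PP c)
    {X Y : Set V} (hX : CE G c X) (hY : CE G c Y) {z : V} (hzX : z ∈ X) (hzY : z ∈ Y)
    (hz : ∃ b, G.Miss c z b) {u w : V} (hu : u ∈ X) (hw : w ∈ Y) {a : Fin k}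
    (hua : G.Miss c u a) (hwa : G.Miss c w a) : u = w := by
  obtain ⟨b, hb⟩ := hz
  by_cases hza : G.Miss c z a
  · rw [hX.elem u hu z hzX a hua hza, hY.elem w hw z hzY a hwa hza]
  have hzu : z ≠ u := by rintro rfl; exact hza hua
  have hzw : z ≠ w := by rintro rfl; exact hza hwa
  have hab : b ≠ a := by
    rintro rfl
    exact hza hb
  obtain ⟨l, v, h0, hinj, hed, hlast⟩ := path_exists G hc hab hb
  have hmem : ∀ i ≤ l, v i ∈ X ∧ v i ∈ Y := by
    intro i
    induction i with
    | zero => intro _; rw [h0]; exact ⟨hzX, hzY⟩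
    | succ i ih =>
      intro hi
      obtain ⟨e, he1, he2⟩ := hed i (by omega)
      obtain ⟨i1, i2⟩ := ih (by omega)
      constructor
      · refine hX.clos e _ (v i) (by rw [he2]; simp) he1 i1 ?_ _ (by rw [he2]; simp)
        rcases altc_or b a i with h | h
        · rw [h]; exact ⟨z, hzX, hb⟩
        · rw [h]; exact ⟨u, hu, hua⟩
      · refine hY.clos e _ (v i) (by rw [he2]; simp) he1 i2 ?_ _ (by rw [he2]; simp)
        rcases altc_or b a i with h | h
        · rw [h]; exact ⟨z, hzY, hb⟩
        · rw [h]; exact ⟨w, hw, hwa⟩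
  have hl0 : l ≠ 0 := by
    rintro rfl
    rw [h0] at hlast
    exact hza hlast
  rcases altc_or b a l with h | h
  · exfalso
    rw [h] at hlast
    have h1 := hX.elem _ (hmem l le_rfl).1 z hzX b hlast hb
    rw [← h0] at h1
    exact hl0 (hinj l le_rfl 0 (Nat.zero_le _) h1)
  · rw [h] at hlast
    rw [← hX.elem _ (hmem l le_rfl).1 u hu a hlast hua,
      ← hY.elem _ (hmem l le_rfl).2 w hw a hlast hwa]

end Q130.RW
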