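import Pool.Agent.Q130.RW.Lift

set_option autoImplicit false

/-!
# From lifting data to a colouring of the lift
-/

namespace Q130.RW

open Pool.Agent.W998.KG
open Pool.Agent.Results.MP_633d19_co.SmallDegree
open Pool.Agent.Results.MP_633d19_co.SmallDegree.MGraph

variable {V E U : Type}

/-- Lifting data: a partial colouring `c`, involutions `L e`, and for every uncoloured edge `j` a
two-coloured path with vertex set `P j` and colours `al j`, `be j`. -/
structure LD (G : MGraph V E) (k : ℕ) (c : E → Option (Fin k)) (L : E → U → U)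
    (κ : {e // c e = none} → V → Fin k) (xx yy : {e // c e = none} → V)
    (P : {e // c e = none} → Set V) (s : {e // c e = none} → U → V → Bool) : Prop where
  pp : G.PP c
  inv : ∀ e h, L e (L e h) = h
  km : ∀ j z, z ∈ G.ends j.1 → G.Miss c z (κ j z)
  ki : ∀ i j z, z ∈ G.ends i.1 → z ∈ G.ends j.1 → κ i z = κ j z → i = j
  ends : ∀ j, G.ends j.1 = s(xx j, yy j)
  xP : ∀ j, xx j ∈ P j
  yP : ∀ j, yy j ∈ P j
  tr : ∀ j e a u v, c e = some a → (a = κ j (xx j) ∨ a = κ j (yy j)) → G.ends e = s(u, v) →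
    u ∈ P j → v ∈ P j ∧ ∀ h, s j h u = s j (L e h) v
  alt : ∀ j h, s j h (xx j) ≠ s j (L j.1 h) (yy j)
  disj : ∀ i j u a, u ∈ P i → u ∈ P j → (a = κ i (xx i) ∨ a = κ i (yy i)) →
    (a = κ j (xx j) ∨ a = κ j (yy j)) → i = j
  ne : ∀ j, κ j (xx j) ≠ κ j (yy j)
  px : ∀ j u, u ∈ P j → u ≠ xx j → ¬ G.Miss c u (κ j (xx j))
  py : ∀ j u, u ∈ P j → u ≠ yy j → ¬ G.Miss c u (κ j (yy j))

/-- The colour of the incidence of `e` with `u`. -/
def Ph {k : ℕ} (c : E → Option (Fin k)) (κ : {e // c e = none} → V → Fin k) (e : E) (u : V)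
    (a : Fin k) : Prop :=
  c e = some a ∨ ∃ h : c e = none, a = κ ⟨e, h⟩ u

theorem stage [Finite V] [Finite E] {G : MGraph V E} {D k : ℕ} (hdeg : ∀ u, G.degree u + D ≤ k)
    {c : E → Option (Fin k)} {L : E → U → U}
    {κ : {e // c e = none} → V → Fin k} {xx yy : {e // c e = none} → V}
    {P : {e // c e = none} → Set V} {s : {e // c e = none} → U → V → Bool}
    (H : LD G k c L κ xx yy P s) (m : Fin D → U → U) (hm : ∀ t h, m t (m t h) = h) :
    ∃ Col : U × V → U × V → Fin k → Prop, (∀ p q a, Col p q a → Col q p a) ∧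
      (∀ p q q' a, Col p q a → Col p q' a → q = q') ∧
      (∀ e x y, G.ends e = s(x, y) → ∀ h, ∃ a, Col (h, x) (L e h, y) a) ∧
      (∀ x t h, ∃ a, Col (h, x) (m t h, x) a) := by
  classical
  let al : {e // c e = none} → Fin k := fun j => κ j (xx j)
  let be : {e // c e = none} → Fin k := fun j => κ j (yy j)
  have hne : ∀ j, al j ≠ be j := H.ne
  have hfun : ∀ e u, ∃ a, Ph c κ e u a := by
    intro e u
    rcases hce : c e with _ | a
    · exact ⟨κ ⟨e, hce⟩ u, Or.inr ⟨hce, rfl⟩⟩
    · exact ⟨a, Or.inl hce⟩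
  have huniq : ∀ e u a a', Ph c κ e u a → Ph c κ e u a' → a = a' := by
    rintro e u a a' (h1 | ⟨h1, h2⟩) (h3 | ⟨h3, h4⟩)
    · rw [h1] at h3; exact Option.some.inj h3
    · rw [h1] at h3; simp at h3
    · rw [h1] at h3; simp at h3
    · rw [h2, h4]
  have hinj : ∀ e e' u a, u ∈ G.ends e → u ∈ G.ends e' → Ph c κ e u a → Ph c κ e' u a →
      e = e' := by
    rintro e e' u a hu hu' (h1 | ⟨h1, h2⟩) (h3 | ⟨h3, h4⟩)
    · exact H.pp e e' u a hu hu' h1 h3
    · exfalso
      have := H.km ⟨e', h3⟩ u hu' e hu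
      rw [← h4] at this
      exact this h1
    · exfalso
      have := H.km ⟨e, h1⟩ u hu e' hu'
      rw [← h2] at this
      exact this h3
    · have := H.ki ⟨e, h1⟩ ⟨e', h3⟩ u hu hu' (by rw [← h2, ← h4])
      exact congrArg Subtype.val this
  -- the permutation of the colours
  let Θ : U → V → Fin k → Fin k := fun h u a =>
    if X : ∃ j, u ∈ P j ∧ (a = al j ∨ a = be j) ∧ s j h u = true then
      Equiv.swap (al X.choose) (be X.choose) a else a
  have hΘ1 : ∀ h u a j, u ∈ P j → (a = al j ∨ a = be j) →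
      Θ h u a = if s j h u = true then Equiv.swap (al j) (be j) a else a := by
    intro h u a j hu ha
    by_cases hs : s j h u = true
    · have X : ∃ j, u ∈ P j ∧ (a = al j ∨ a = be j) ∧ s j h u = true := ⟨j, hu, ha, hs⟩
      simp only [Θ]
      rw [dif_pos X, if_pos hs]
      have h1 := X.choose_spec
      rw [H.disj X.choose j u a h1.1 hu h1.2.1 ha]
    · have X : ¬ ∃ j, u ∈ P j ∧ (a = al j ∨ a = be j) ∧ s j h u = true := by
        rintro ⟨i, h1, h2, h3⟩
        rw [H.disj i j u a h1 hu h2 ha] at h3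
        exact hs h3
      simp only [Θ]
      rw [dif_neg X, if_neg hs]
  have hΘ2 : ∀ h u a, (¬ ∃ j, u ∈ P j ∧ (a = al j ∨ a = be j)) → Θ h u a = a := by
    intro h u a hX
    have X : ¬ ∃ j, u ∈ P j ∧ (a = al j ∨ a = be j) ∧ s j h u = true := by
      rintro ⟨i, h1, h2, h3⟩
      exact hX ⟨i, h1, h2⟩
    simp only [Θ]
    rw [dif_neg X]
  have hswap : ∀ j a, (a = al j ∨ a = be j) →
      (Equiv.swap (al j) (be j) a = al j ∨ Equiv.swap (al j) (be j) a = be j) := by
    rintro j a (h | h)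
    · right; rw [h, Equiv.swap_apply_left]
    · left; rw [h, Equiv.swap_apply_right]
  have hΘpair : ∀ h u a j, u ∈ P j → (a = al j ∨ a = be j) →
      (Θ h u a = al j ∨ Θ h u a = be j) := by
    intro h u a j hu ha
    rw [hΘ1 h u a j hu ha]
    split_ifs
    · exact hswap j a ha
    · exact ha
  have hΘinv : ∀ h u a, Θ h u (Θ h u a) = a := by
    intro h u a
    by_cases hX : ∃ j, u ∈ P j ∧ (a = al j ∨ a = be j)
    · obtain ⟨j, hu, ha⟩ := hX
      rw [hΘ1 h u (Θ h u a) j hu (hΘpair h u a j hu ha), hΘ1 h u a j hu ha]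
      split_ifs
      · exact Equiv.swap_apply_self _ _ _
      · rfl
    · rw [hΘ2 h u (Θ h u a) (by rw [hΘ2 h u a hX]; exact hX), hΘ2 h u a hX]
  have hΘinj : ∀ h u a b, Θ h u a = Θ h u b → a = b := by
    intro h u a b hab
    rw [← hΘinv h u a, hab, hΘinv]
  -- consistency
  have hcons : ∀ e u v, G.ends e = s(u, v) → ∀ a, Ph c κ e u a → ∀ h,
      ∃ a', Ph c κ e v a' ∧ Θ h u a = Θ (L e h) v a' := by
    intro e u v he a ha h
    rcases ha with ha | ⟨h0, ha⟩
    · refine ⟨a, Or.inl ha, ?_⟩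
      by_cases hX : ∃ j, u ∈ P j ∧ (a = al j ∨ a = be j)
      · obtain ⟨j, hu, haj⟩ := hX
        obtain ⟨h1, h2⟩ := H.tr j e a u v ha haj he hu
        rw [hΘ1 h u a j hu haj, hΘ1 (L e h) v a j h1 haj, h2 h]
      · rw [hΘ2 h u a hX, hΘ2 (L e h) v a]
        rintro ⟨j, hv, haj⟩
        exact hX ⟨j, (H.tr j e a v u ha haj (by rw [he, Sym2.eq_swap]) hv).1, haj⟩
    · obtain ⟨j, hj⟩ : ∃ j : {e // c e = none}, j = ⟨e, h0⟩ := ⟨_, rfl⟩
      have hje : j.1 = e := by rw [hj]
      rw [← hj] at ha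
      have hends := H.ends j
      rw [hje, he, Sym2.eq_iff] at hends
      refine ⟨κ j v, Or.inr ⟨h0, by rw [hj]⟩, ?_⟩
      rcases hends with ⟨hu, hv⟩ | ⟨hu, hv⟩
      · subst hu hv
        have halt := H.alt j h
        rw [hje] at halt
        have e1 : a = al j := ha
        rw [e1]
        rw [hΘ1 h (xx j) (al j) j (H.xP j) (Or.inl rfl)]
        have e2 : κ j (yy j) = be j := rfl
        rw [e2, hΘ1 (L e h) (yy j) (be j) j (H.yP j) (Or.inr rfl)]
        by_cases h1 : s j h (xx j) = true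
        · have h2 : ¬ s j (L e h) (yy j) = true := by
            intro h2; rw [h1, h2] at halt; exact halt rfl
          rw [if_pos h1, if_neg h2, Equiv.swap_apply_left]
        · have h2 : s j (L e h) (yy j) = true := by
            cases h3 : s j (L e h) (yy j)
            · exfalso
              rw [h3] at halt
              cases h4 : s j h (xx j)
              · rw [h4] at halt; exact halt rfl
              · exact h1 h4
            · rfl
          rw [if_neg h1, if_pos h2, Equiv.swap_apply_right]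
      · subst hu hv
        have halt := H.alt j (L e h)
        rw [hje, H.inv] at halt
        have e1 : a = be j := ha
        rw [e1]
        rw [hΘ1 h (yy j) (be j) j (H.yP j) (Or.inr rfl)]
        have e2 : κ j (xx j) = al j := rfl
        rw [e2, hΘ1 (L e h) (xx j) (al j) j (H.xP j) (Or.inl rfl)]
        by_cases h1 : s j h (yy j) = true
        · have h2 : ¬ s j (L e h) (xx j) = true := by
            intro h2; rw [h1, h2] at halt; exact halt rfl
          rw [if_pos h1, if_neg h2, Equiv.swap_apply_right]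
        · have h2 : s j (L e h) (xx j) = true := by
            cases h3 : s j (L e h) (xx j)
            · exfalso
              rw [h3] at halt
              cases h4 : s j h (yy j)
              · rw [h4] at halt; exact halt rfl
              · exact h1 h4
            · rfl
          rw [if_neg h1, if_pos h2, Equiv.swap_apply_left]
  -- palettes
  let Pal : V → Finset (Fin k) := fun u =>
    Finset.univ.filter (fun a => ∃ e, u ∈ G.ends e ∧ Ph c κ e u a)
  have hPal : ∀ u a, a ∈ Pal u ↔ ∃ e, u ∈ G.ends e ∧ Ph c κ e u a := by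
    intro u a; simp [Pal]
  have hPcard : ∀ u, (Pal u).card ≤ G.degree u := by
    intro u
    have hex : ∀ a : Pal u, ∃ e, u ∈ G.ends e ∧ Ph c κ e u a.1 := fun a => (hPal u a.1).1 a.2
    choose F hF1 hF2 using hex
    unfold degree
    rw [← Fintype.card_coe, ← Nat.card_eq_fintype_card]
    refine Nat.card_le_card_of_injective (fun a : Pal u => (⟨F a, hF1 a⟩ : {e // u ∈ G.ends e})) ?_
    intro a b hab
    have h1 : F a = F b := congrArg Subtype.val hab
    have h2 := hF2 a
    rw [h1] at h2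
    exact Subtype.ext (huniq _ _ _ _ h2 (hF2 b))
  have hPΘ : ∀ h u a, a ∈ Pal u → Θ h u a ∈ Pal u := by
    intro h u a ha
    by_cases hX : ∃ j, u ∈ P j ∧ (a = al j ∨ a = be j)
    · obtain ⟨j, hu, haj⟩ := hX
      have h1 : al j ∈ Pal u := by
        rw [hPal]
        by_cases hux : u = xx j
        · refine ⟨j.1, ?_, Or.inr ⟨j.2, ?_⟩⟩
          · rw [H.ends j, hux]; simp
          · rw [hux]
        · have := H.px j u hu hux
          unfold Miss at this
          push Not at this
          obtain ⟨e, he1, he2⟩ := this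
          exact ⟨e, he1, Or.inl he2⟩
      have h2 : be j ∈ Pal u := by
        rw [hPal]
        by_cases huy : u = yy j
        · refine ⟨j.1, ?_, Or.inr ⟨j.2, ?_⟩⟩
          · rw [H.ends j, huy]; simp
          · rw [huy]
        · have := H.py j u hu huy
          unfold Miss at this
          push Not at this
          obtain ⟨e, he1, he2⟩ := this
          exact ⟨e, he1, Or.inl he2⟩
      rcases hΘpair h u a j hu haj with h3 | h3
      · rw [h3]; exact h1
      · rw [h3]; exact h2
    · rw [hΘ2 h u a hX]; exact ha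
  -- colours of the loops
  have hloop : ∀ u, ∃ lc : Fin D → Fin k, Function.Injective lc ∧ ∀ t, lc t ∉ Pal u := by
    intro u
    have h1 : D ≤ ((Pal u)ᶜ).card := by
      rw [Finset.card_compl, Fintype.card_fin]
      have := hPcard u
      have := hdeg u
      omega
    have h2 : Fintype.card (Fin D) ≤ Fintype.card ((Pal u)ᶜ : Finset (Fin k)) := by
      rw [Fintype.card_fin, Fintype.card_coe]; exact h1
    obtain ⟨φ⟩ := Function.Embedding.nonempty_of_card_le h2
    refine ⟨fun t => (φ t).1, ?_, ?_⟩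
    · intro t t' h
      exact φ.injective (Subtype.ext h)
    · intro t
      exact Finset.mem_compl.1 (φ t).2
  choose lc hlc1 hlc2 using hloop
  refine ⟨fun p q a => (∃ e b, G.ends e = s(p.2, q.2) ∧ L e p.1 = q.1 ∧ Ph c κ e p.2 b ∧
    a = Θ p.1 p.2 b) ∨ (p.2 = q.2 ∧ ∃ t, m t p.1 = q.1 ∧ a = lc p.2 t), ?_, ?_, ?_, ?_⟩
  · rintro p q a (⟨e, b, h1, h2, h3, h4⟩ | ⟨h1, t, h2, h3⟩)
    · left
      obtain ⟨b', h5, h6⟩ := hcons e p.2 q.2 h1 b h3 p.1
      refine ⟨e, b', by rw [h1, Sym2.eq_swap], ?_, h5, ?_⟩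
      · rw [← h2, H.inv]
      · rw [h4, h6, h2]
    · right
      refine ⟨h1.symm, t, ?_, ?_⟩
      · rw [← h2, hm]
      · rw [h3, h1]
  · rintro p q q' a (⟨e, b, h1, h2, h3, h4⟩ | ⟨h1, t, h2, h3⟩)
      (⟨e', b', h1', h2', h3', h4'⟩ | ⟨h1', t', h2', h3'⟩)
    · have hbb : b = b' := hΘinj p.1 p.2 b b' (by rw [← h4, ← h4'])
      rw [← hbb] at h3'
      have hee : e = e' := hinj e e' p.2 b (by rw [h1]; simp) (by rw [h1']; simp) h3 h3'
      subst hee
      apply Prod.ext
      · rw [← h2, ← h2']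
      · rw [h1, Sym2.congr_right] at h1'
        exact h1'
    · exfalso
      apply hlc2 p.2 t'
      rw [← h3', h4]
      exact hPΘ _ _ _ ((hPal _ _).2 ⟨e, by rw [h1]; simp, h3⟩)
    · exfalso
      apply hlc2 p.2 t
      rw [← h3, h4']
      exact hPΘ _ _ _ ((hPal _ _).2 ⟨e', by rw [h1']; simp, h3'⟩)
    · have htt : t = t' := hlc1 p.2 (by rw [← h3, ← h3'])
      subst htt
      apply Prod.ext
      · rw [← h2, ← h2']
      · rw [← h1, ← h1']
  · intro e x y hxy h
    obtain ⟨b, hb⟩ := hfun e x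
    exact ⟨Θ h x b, Or.inl ⟨e, b, hxy, rfl, hb, rfl⟩⟩
  · intro x t h
    exact ⟨lc x t, Or.inr ⟨rfl, t, rfl, rfl⟩⟩

end Q130.RW
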