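import Pool.Agent.Q130.RW.Comb
import Pool.Agent.W411.KG.TAS

set_option autoImplicit false

/-!
# Maximum partial edge colourings and closed elementary sets
-/

namespace Q130.RW

open Pool.Agent.W998.KG
open Pool.Agent.Results.MP_633d19_co.SmallDegree
open Pool.Agent.Results.MP_633d19_co.SmallDegree.MGraph

variable {V E : Type}

/-- The multigraph with the edges in `S` only. -/
def sub (G : MGraph V E) (S : Set E) : MGraph V S where
  ends e := G.ends e.1
  loopless e := G.loopless e.1

/-- The number of uncoloured edges. -/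
noncomputable def unc {k : ℕ} (c : E → Option (Fin k)) : ℕ := {e | c e = none}.ncard

/-- `c` is a proper partial colouring with as few uncoloured edges as possible. -/
structure MaxC (G : MGraph V E) {k : ℕ} (c : E → Option (Fin k)) : Prop where
  pp : G.PP c
  max : ∀ c' : E → Option (Fin k), G.PP c' → unc c ≤ unc c'

theorem exists_max (P : ℕ → Prop) (n0 : ℕ) (h0 : P n0) (B : ℕ) (hB : ∀ n, P n → n ≤ B) :
    ∃ n, P n ∧ ∀ m, P m → m ≤ n := by
  classical
  exact ⟨Nat.findGreatest P B, Nat.findGreatest_spec (hB n0 h0) h0,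
    fun m hm => Nat.le_findGreatest (hB m hm) hm⟩

theorem tt_bound [Finite V] {G : MGraph V E} {k n : ℕ} {y : ℕ → V} {f : ℕ → E} {pr : ℕ → ℕ}
    {c : E → Option (Fin k)} (h : TT G n y f pr c) : n ≤ Nat.card V := by
  have hinj : Function.Injective (fun i : Fin (n + 1) => y i) := by
    intro i j hij
    exact Fin.ext (h.inj i (by omega) j (by omega) hij)
  have h1 := Nat.card_le_card_of_injective _ hinj
  rw [Nat.card_eq_fintype_card, Fintype.card_fin] at h1
  omega

theorem tt_extend {G : MGraph V E} {k n : ℕ} {y : ℕ → V} {f : ℕ → E} {pr : ℕ → ℕ}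
    {c : E → Option (Fin k)} (hn : 1 ≤ n) (h : TT G n y f pr c)
    {i : ℕ} (hi : i ≤ n) {e : E} {a : Fin k} (hca : c e = some a)
    (hm : ∃ j ≤ n, G.Miss c (y j) a) {z : V} (hz : G.ends e = s(y i, z))
    (hne : ∀ j ≤ n, z ≠ y j) :
    TT G (n + 1) (Function.update y (n + 1) z) (Function.update f n e)
      (Function.update pr n i) c := by
  have hu : ∀ j, j ≤ n → Function.update y (n + 1) z j = y j := fun j hj =>
    Function.update_of_ne (by omega) _ _
  have hz' : Function.update y (n + 1) z (n + 1) = z := Function.update_self _ _ _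
  refine ⟨h.pp, ?_, ?_, ?_, ?_, ?_⟩
  · intro p hp q hq hpq
    rcases Nat.lt_or_ge p (n + 1) with h1 | h1
    · rcases Nat.lt_or_ge q (n + 1) with h2 | h2
      · rw [hu p (by omega), hu q (by omega)] at hpq
        exact h.inj p (by omega) q (by omega) hpq
      · have h3 : q = n + 1 := by omega
        subst h3
        rw [hu p (by omega), hz'] at hpq
        exact absurd hpq.symm (hne p (by omega))
    · have h3 : p = n + 1 := by omega
      subst h3
      rcases Nat.lt_or_ge q (n + 1) with h2 | h2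
      · rw [hu q (by omega), hz'] at hpq
        exact absurd hpq (hne q (by omega))
      · omega
  · intro p hp
    rcases Nat.lt_or_ge p n with h1 | h1
    · rw [Function.update_of_ne (by omega)]
      exact h.le p h1
    · have h3 : p = n := by omega
      subst h3
      rw [Function.update_self]
      exact hi
  · intro p hp
    rcases Nat.lt_or_ge p n with h1 | h1
    · have h2 := h.le p h1
      rw [Function.update_of_ne (by omega : p ≠ n), Function.update_of_ne (by omega : p ≠ n),
        hu _ (by omega), hu _ (by omega)]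
      exact h.ed p h1
    · have h3 : p = n := by omega
      subst h3
      rw [Function.update_self, Function.update_self, hz', hu i hi]
      exact hz
  · intro e'
    rw [Function.update_of_ne (by omega : (0 : ℕ) ≠ n)]
    exact h.none_iff e'
  · intro p hp h1p
    rcases Nat.lt_or_ge p n with h1 | h1
    · obtain ⟨b, hb, j, hj, hmj⟩ := h.col p h1 h1p
      refine ⟨b, ?_, j, hj, ?_⟩
      · rw [Function.update_of_ne (by omega : p ≠ n)]
        exact hb
      · rw [hu j (by omega)]
        exact hmj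
    · have h3 : p = n := by omega
      subst h3
      obtain ⟨j, hj, hmj⟩ := hm
      refine ⟨a, ?_, j, hj, ?_⟩
      · rw [Function.update_self]
        exact hca
      · rw [hu j hj]
        exact hmj

theorem sub_miss {G : MGraph V E} {k : ℕ} {c : E → Option (Fin k)} {S : Set E}
    (hS : ∀ e, c e ≠ none → e ∈ S) (v : V) (a : Fin k) :
    (sub G S).Miss (fun e => c e.1) v a ↔ G.Miss c v a := by
  constructor
  · intro h e he hc
    exact h ⟨e, hS e (by rw [hc]; simp)⟩ he hc
  · intro h e he hc
    exact h e.1 he hc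

theorem sub_degree_le [Finite E] (G : MGraph V E) (S : Set E) (v : V) :
    (sub G S).degree v ≤ G.degree v := by
  unfold degree
  refine Nat.card_le_card_of_injective
    (fun e : {e : S // v ∈ (sub G S).ends e} => (⟨e.1.1, e.2⟩ : {e : E // v ∈ G.ends e})) ?_
  intro e f h
  apply Subtype.ext
  apply Subtype.ext
  exact congrArg (fun z : {e : E // v ∈ G.ends e} => z.1) h

/-- The graph of the coloured edges and one uncoloured edge is not colourable. -/
theorem not_colorable [Finite E] {G : MGraph V E} {k : ℕ} {c : E → Option (Fin k)}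
    (hc : MaxC G c) {e0 : E} (he0 : c e0 = none) :
    ¬ (sub G {e | e = e0 ∨ c e ≠ none}).Colorable k := by
  classical
  rintro ⟨d, hd⟩
  let c' : E → Option (Fin k) := fun e =>
    if h : e ∈ {e | e = e0 ∨ c e ≠ none} then some (d ⟨e, h⟩) else none
  have hpp : G.PP c' := by
    intro e f v a hev hfv h1 h2
    simp only [c'] at h1 h2
    split_ifs at h1 h2 with h3 h4
    by_contra hne
    refine hd ⟨e, h3⟩ ⟨f, h4⟩ (fun h => hne (congrArg Subtype.val h)) ⟨v, hev, hfv⟩ ?_
    have e1 := Option.some.inj h1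
    have e2 := Option.some.inj h2
    rw [e1, e2]
  have h1 := hc.max c' hpp
  unfold unc at h1
  have h2 : {e | c' e = none} ⊂ {e | c e = none} := by
    refine ⟨?_, ?_⟩
    · intro e he
      have he' : c' e = none := he
      simp only [c'] at he'
      split_ifs at he' with h3
      by_contra h4
      exact h3 (Or.inr h4)
    · intro h3
      have h4 : c' e0 = none := h3 he0
      simp only [c'] at h4
      split_ifs at h4 with h5
      exact h5 (Or.inl rfl)
  have h3 := Set.ncard_lt_ncard h2 (Set.toFinite _)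
  omega

/-- A closed elementary set around an uncoloured edge (Tashkinov). -/
theorem closure_exists [Finite V] [Finite E] {G : MGraph V E} {k : ℕ} {c : E → Option (Fin k)}
    (hc : MaxC G c) (hdeg : ∀ u, G.degree u + 1 ≤ k) {e0 : E} (he0 : c e0 = none) :
    ∃ X : Set V, (∀ u ∈ G.ends e0, u ∈ X) ∧
      (∀ u ∈ X, ∀ w ∈ X, ∀ a, G.Miss c u a → G.Miss c w a → u = w) ∧
      (∀ e a u, u ∈ G.ends e → c e = some a → u ∈ X → (∃ v ∈ X, G.Miss c v a) →
        ∀ w ∈ G.ends e, w ∈ X) := by
  classical
  obtain ⟨S, hSdef⟩ : ∃ S : Set E, S = {e | e = e0 ∨ c e ≠ none} := ⟨_, rfl⟩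
  have hS : ∀ e, c e ≠ none → e ∈ S := fun e he => by rw [hSdef]; exact Or.inr he
  have hS0 : e0 ∈ S := by rw [hSdef]; exact Or.inl rfl
  have hSn : ∀ e ∈ S, c e = none → e = e0 := by
    intro e he h
    rw [hSdef] at he
    rcases he with he | he
    · exact he
    · exact absurd h he
  obtain ⟨x, y, hxy⟩ : ∃ x y, G.ends e0 = s(x, y) := by
    induction h : G.ends e0 with
    | h x y => exact ⟨x, y, rfl⟩
  have hne : x ≠ y := by
    intro h
    apply G.loopless e0
    rw [hxy, h]
    exact Sym2.mk_isDiag_iff.2 rfl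
  have hnc := not_colorable hc he0
  rw [← hSdef] at hnc
  let c' : S → Option (Fin k) := fun e => c e.1
  have hmiss : ∀ v a, (sub G S).Miss c' v a ↔ G.Miss c v a := fun v a => sub_miss hS v a
  -- the first tree
  have h0 : TT (sub G S) 1 (fun i => if i = 0 then x else y) (fun _ => ⟨e0, hS0⟩) (fun _ => 0)
      c' := by
    refine ⟨?_, ?_, ?_, ?_, ?_, ?_⟩
    · intro e f v a hev hfv h1 h2
      exact Subtype.ext (hc.pp e.1 f.1 v a hev hfv h1 h2)
    · intro i hi j hj hij
      have hi' : i = 0 ∨ i = 1 := by omega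
      have hj' : j = 0 ∨ j = 1 := by omega
      rcases hi' with rfl | rfl <;> rcases hj' with rfl | rfl <;> simp_all
    · intro i _; exact Nat.zero_le _
    · intro i hi
      have hi' : i = 0 := by omega
      subst hi'
      exact hxy
    · intro e
      constructor
      · intro h
        exact Subtype.ext (hSn e.1 e.2 h)
      · rintro rfl
        exact he0
    · intro i hi h1
      omega
  obtain ⟨n, ⟨⟨yy, f, pr, hT, hy0, hy1⟩, hn1⟩, hmax⟩ := exists_max
    (fun n => (∃ (yy : ℕ → V) (f : ℕ → S) (pr : ℕ → ℕ), TT (sub G S) n yy f pr c' ∧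
      yy 0 = x ∧ yy 1 = y) ∧ 1 ≤ n) 1
    ⟨⟨_, _, _, h0, rfl, rfl⟩, le_rfl⟩ (Nat.card V)
    (fun n h => by
      obtain ⟨⟨_, _, _, h, _, _⟩, _⟩ := h
      exact tt_bound h)
  have hdeg' : ∀ u, (sub G S).degree u ≤ k - 1 := fun u =>
    (sub_degree_le G S u).trans (by have := hdeg u; omega)
  have helem : ∀ i ≤ n, ∀ j ≤ n, ∀ a, G.Miss c (yy i) a → G.Miss c (yy j) a → i = j := by
    have hk : k - 1 + 1 ≤ k := by have := hdeg x; omega
    have key : ∀ i j, i < j → j ≤ n → ∀ a, (sub G S).Miss c' (yy i) a →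
        (sub G S).Miss c' (yy j) a → False :=
      Pool.Agent.W411.KG.main hnc hdeg' hk hT hn1
    intro i hi j hj a h1 h2
    rcases Nat.lt_trichotomy i j with h3 | h3 | h3
    · exact (key i j h3 hj a ((hmiss _ _).2 h1) ((hmiss _ _).2 h2)).elim
    · exact h3
    · exact (key j i h3 hi a ((hmiss _ _).2 h2) ((hmiss _ _).2 h1)).elim
  refine ⟨{v | ∃ i ≤ n, v = yy i}, ?_, ?_, ?_⟩
  · intro u hu
    rw [hxy, Sym2.mem_iff] at hu
    rcases hu with rfl | rfl
    · exact ⟨0, Nat.zero_le _, hy0.symm⟩
    · exact ⟨1, hn1, hy1.symm⟩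
  · rintro u ⟨i, hi, rfl⟩ w ⟨j, hj, rfl⟩ a h1 h2
    rw [helem i hi j hj a h1 h2]
  · rintro e a u hue hce ⟨i, hi, rfl⟩ ⟨v, ⟨j, hj, rfl⟩, hv⟩ w hw
    by_contra hcon
    obtain ⟨z, hz⟩ := Sym2.mem_iff_exists.mp hue
    have hwz : w = z := by
      rw [hz, Sym2.mem_iff] at hw
      rcases hw with rfl | rfl
      · exact absurd ⟨i, hi, rfl⟩ hcon
      · rfl
    subst hwz
    have heS : e ∈ S := hS e (by rw [hce]; simp)
    have h5 := tt_extend (e := (⟨e, heS⟩ : S)) (a := a) hn1 hT hi hce
      ⟨j, hj, (hmiss _ _).2 hv⟩ hz (fun j' hj' h => hcon ⟨j', hj', h⟩)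
    have h6 := hmax (n + 1) ⟨⟨_, _, _, h5, ?_, ?_⟩, by omega⟩
    · omega
    · rw [Function.update_of_ne (by omega)]; exact hy0
    · rw [Function.update_of_ne (by omega)]; exact hy1

/-- A maximum colouring exists. -/
theorem maxC_exists [Finite E] (G : MGraph V E) (k : ℕ) : ∃ c : E → Option (Fin k), MaxC G c := by
  classical
  have h0 : ∃ n, ∃ c : E → Option (Fin k), G.PP c ∧ unc c = n :=
    ⟨_, fun _ => none, fun _ _ _ _ _ _ h _ => by simp at h, rfl⟩
  obtain ⟨c, h1, h2⟩ := Nat.find_spec h0
  refine ⟨c, h1, fun c' hc' => ?_⟩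
  rw [h2]
  exact Nat.find_min' h0 ⟨c', hc', rfl⟩

end Q130.RW
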