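import Pool.Agent.Q130.RW.Data

set_option autoImplicit false

/-!
# The wreath product of a graph of class one with any graph is of class one
-/

namespace Q130.RW

open Pool.Agent.Results.MP_633d19_co.SmallDegree
open Pool.Agent.Results.MP_633d19_co.SmallDegree.MGraph

/-- The graph joining different equivalent vertices. -/
def clG {W : Type} (R : W → W → Prop) (hR : Equivalence R) : SimpleGraph W where
  Adj x y := x ≠ y ∧ R x y
  symm := ⟨fun _ _ h => ⟨h.1.symm, hR.symm h.2⟩⟩
  loopless := ⟨fun _ h => h.1 rfl⟩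

/-- The edges of the quotient multigraph. -/
def QE {W : Type} (D : ℕ) (A B : SimpleGraph W) : Type :=
  {p : Option (Fin D) × Sym2 W // match p.1 with
    | none => p.2 ∈ A.edgeSet
    | some _ => p.2 ∈ B.edgeSet}

/-- The quotient multigraph. -/
def QG {W : Type} (D : ℕ) (A B : SimpleGraph W) : MGraph W (QE D A B) where
  ends e := e.1.2
  loopless := by
    rintro ⟨⟨o, s⟩, h⟩ hd
    rcases o with _ | t
    · exact A.not_isDiag_of_mem_edgeSet h hd
    · exact B.not_isDiag_of_mem_edgeSet h hd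

theorem wreath {V W : Type} [Finite V] [Finite W] (G : SimpleGraph V) (A : SimpleGraph W)
    (R : W → W → Prop) (hR : Equivalence R) (D k : ℕ) (hD : 1 ≤ D) (c0 : Sym2 V → Fin D)
    (hc0 : ∀ e ∈ G.edgeSet, ∀ f ∈ G.edgeSet, e ≠ f → (∃ v, v ∈ e ∧ v ∈ f) → c0 e ≠ c0 f)
    (hk : ∀ u : W, Nat.card {w // A.Adj u w} + D * Nat.card {w // R u w} ≤ k) :
    ∃ Col : V × W → V × W → Fin k → Prop, (∀ p q a, Col p q a → Col q p a) ∧
      (∀ p q q' a, Col p q a → Col p q' a → q = q') ∧
      (∀ g x y, A.Adj x y → ∃ a, Col (g, x) (g, y) a) ∧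
      (∀ g g' x y, G.Adj g g' → R x y → ∃ a, Col (g, x) (g', y) a) := by
  classical
  obtain ⟨t0, ht0⟩ : ∃ t0 : Fin D, t0 = ⟨0, hD⟩ := ⟨_, rfl⟩
  -- the neighbour of `g` of colour `t`
  let has : Fin D → V → Prop := fun t g => ∃ g', G.Adj g g' ∧ c0 s(g, g') = t
  let nbr : Fin D → V → V := fun t g => if h : has t g then h.choose else g
  have hnbr : ∀ t g g', G.Adj g g' → c0 s(g, g') = t → nbr t g = g' := by
    intro t g g' h1 h2
    have H : has t g := ⟨g', h1, h2⟩
    simp only [nbr]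
    rw [dif_pos H]
    by_contra hne
    have h3 := H.choose_spec
    refine hc0 s(g, H.choose) h3.1 s(g, g') h1 ?_ ⟨g, by simp, by simp⟩ (by rw [h3.2, h2])
    intro h4
    exact hne (Sym2.congr_right.mp h4)
  have hnot : ∀ t g, ¬ has t g → nbr t g = g := by
    intro t g h
    simp only [nbr]
    rw [dif_neg h]
  have hhas : ∀ t g, has t g → G.Adj g (nbr t g) ∧ c0 s(g, nbr t g) = t := by
    rintro t g ⟨g', h1, h2⟩
    rw [hnbr t g g' h1 h2]
    exact ⟨h1, h2⟩
  have hinv : ∀ t g, nbr t (nbr t g) = g := by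
    intro t g
    by_cases h : has t g
    · obtain ⟨h1, h2⟩ := hhas t g h
      exact hnbr t _ _ h1.symm (by rw [Sym2.eq_swap]; exact h2)
    · rw [hnot t g h, hnot t g h]
  have hhas' : ∀ t g, has t (nbr t g) ↔ has t g := by
    intro t g
    constructor
    · intro h
      by_contra h'
      rw [hnot t g h'] at h
      exact h' h
    · intro h
      obtain ⟨h1, h2⟩ := hhas t g h
      exact ⟨g, h1.symm, by rw [Sym2.eq_swap]; exact h2⟩
  let m : Fin D → V × Bool → V × Bool := fun t p =>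
    (nbr t p.1, if t = t0 ∧ ¬ has t p.1 then !p.2 else p.2)
  have hm : ∀ t p, m t (m t p) = p := by
    rintro t ⟨g, b⟩
    simp only [m]
    rw [hinv]
    by_cases h : t = t0 ∧ ¬ has t g
    · have h' : t = t0 ∧ ¬ has t (nbr t g) := ⟨h.1, fun h2 => h.2 ((hhas' t g).1 h2)⟩
      rw [if_pos h, if_pos h', Bool.not_not]
    · have h' : ¬ (t = t0 ∧ ¬ has t (nbr t g)) := fun h2 =>
        h ⟨h2.1, fun h3 => h2.2 ((hhas' t g).2 h3)⟩
      rw [if_neg h, if_neg h']
  have hm0 : ∀ p, m ⟨0, hD⟩ p ≠ p := by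
    rintro ⟨g, b⟩ h
    rw [← ht0] at h
    simp only [m] at h
    have h1 := congrArg Prod.fst h
    have h2 := congrArg Prod.snd h
    simp only at h1 h2
    by_cases h3 : has t0 g
    · exact (hhas t0 g h3).1.ne h1.symm
    · rw [if_pos ⟨trivial, h3⟩] at h2
      cases b <;> simp at h2
  -- the multigraph
  let B := clG R hR
  let Q := QG D A B
  let ty : QE D A B → Option (Fin D) := fun e => e.1.1
  have hty : ∀ e f, Q.ends e = Q.ends f → ty e = ty f → e = f := by
    intro e f h1 h2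
    exact Subtype.ext (Prod.ext h2 h1)
  have : Finite (QE D A B) := by
    unfold QE
    infer_instance
  have hdeg : ∀ u, Q.degree u + D ≤ k := by
    intro u
    refine le_trans ?_ (hk u)
    have hy : ∀ e : {e // u ∈ Q.ends e}, ∃ y, Q.ends e.1 = s(u, y) := fun e =>
      Sym2.mem_iff_exists.mp e.2
    choose y hy using hy
    have hcase : ∀ e : {e // u ∈ Q.ends e}, (e.1.1.1 = none ∧ A.Adj u (y e)) ∨
        (∃ t, e.1.1.1 = some t ∧ u ≠ y e ∧ R u (y e)) := by
      intro e
      have h1 := hy e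
      obtain ⟨⟨⟨o, s⟩, h⟩, hu⟩ := e
      have h2 : s = s(u, y ⟨⟨(o, s), h⟩, hu⟩) := h1
      rcases o with _ | t
      · left
        refine ⟨rfl, ?_⟩
        have h3 : s ∈ A.edgeSet := h
        rw [h2] at h3
        exact h3
      · right
        refine ⟨t, rfl, ?_⟩
        have h3 : s ∈ B.edgeSet := h
        rw [h2] at h3
        exact h3
    let F : {e // u ∈ Q.ends e} ⊕ Fin D → {w // A.Adj u w} ⊕ (Fin D × {w // R u w}) := fun z =>
      match z with
      | Sum.inl e => if h : A.Adj u (y e) ∧ e.1.1.1 = none then Sum.inl ⟨y e, h.1⟩ else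
          (if h' : R u (y e) then Sum.inr ((e.1.1.1).getD t0, ⟨y e, h'⟩) else
            Sum.inr (t0, ⟨u, hR.refl u⟩))
      | Sum.inr t => Sum.inr (t, ⟨u, hR.refl u⟩)
    have hF1 : ∀ e : {e // u ∈ Q.ends e}, e.1.1.1 = none → ∃ h, F (Sum.inl e) =
        Sum.inl ⟨y e, h⟩ := by
      intro e he
      rcases hcase e with ⟨_, h⟩ | ⟨t, h, _⟩
      · refine ⟨h, ?_⟩
        simp only [F]
        rw [dif_pos ⟨h, he⟩]
      · rw [he] at h; simp at h
    have hF2 : ∀ (e : {e // u ∈ Q.ends e}) t, e.1.1.1 = some t → ∃ h, F (Sum.inl e) =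
        Sum.inr (t, ⟨y e, h⟩) ∧ u ≠ y e := by
      intro e t he
      rcases hcase e with ⟨h, _⟩ | ⟨t', h, h1, h2⟩
      · rw [he] at h; simp at h
      · refine ⟨h2, ?_, h1⟩
        simp only [F]
        rw [dif_neg (by rintro ⟨_, h3⟩; rw [he] at h3; simp at h3), dif_pos h2, he]
        rfl
    have hFinj : Function.Injective F := by
      have hee : ∀ e e' : {e // u ∈ Q.ends e}, y e = y e' → e.1.1.1 = e'.1.1.1 → e = e' := by
        intro e e' h1 h2
        apply Subtype.ext
        apply hty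
        · rw [hy e, hy e', h1]
        · exact h2
      intro z z' hz
      rcases z with e | t <;> rcases z' with e' | t'
      · congr 1
        rcases ho : e.1.1.1 with _ | t <;> rcases ho' : e'.1.1.1 with _ | t'
        · obtain ⟨h1, h2⟩ := hF1 e ho
          obtain ⟨h3, h4⟩ := hF1 e' ho'
          rw [h2, h4] at hz
          have h5 := Subtype.mk.inj (Sum.inl.inj hz)
          exact hee e e' h5 (by rw [ho, ho'])
        · obtain ⟨h1, h2⟩ := hF1 e ho
          obtain ⟨h3, h4, _⟩ := hF2 e' t' ho'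
          rw [h2, h4] at hz
          simp at hz
        · obtain ⟨h1, h2⟩ := hF1 e' ho'
          obtain ⟨h3, h4, _⟩ := hF2 e t ho
          rw [h2, h4] at hz
          simp at hz
        · obtain ⟨h1, h2, _⟩ := hF2 e t ho
          obtain ⟨h3, h4, _⟩ := hF2 e' t' ho'
          rw [h2, h4] at hz
          have h5 := Prod.mk.inj (Sum.inr.inj hz)
          exact hee e e' (Subtype.mk.inj h5.2) (by rw [ho, ho', h5.1])
      · exfalso
        rcases ho : e.1.1.1 with _ | t
        · obtain ⟨h1, h2⟩ := hF1 e ho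
          rw [h2] at hz
          simp [F] at hz
        · obtain ⟨h1, h2, h3⟩ := hF2 e t ho
          rw [h2] at hz
          have h5 := Prod.mk.inj (Sum.inr.inj hz)
          exact h3 (Subtype.mk.inj h5.2).symm
      · exfalso
        rcases ho : e'.1.1.1 with _ | t'
        · obtain ⟨h1, h2⟩ := hF1 e' ho
          rw [h2] at hz
          simp [F] at hz
        · obtain ⟨h1, h2, h3⟩ := hF2 e' t' ho
          rw [h2] at hz
          have h5 := Prod.mk.inj (Sum.inr.inj hz)
          exact h3 (Subtype.mk.inj h5.2)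
      · have h5 := Prod.mk.inj (Sum.inr.inj hz)
        rw [h5.1]
    have h1 := Nat.card_le_card_of_injective F hFinj
    rw [Nat.card_sum, Nat.card_sum, Nat.card_prod, Nat.card_eq_fintype_card (α := Fin D),
      Fintype.card_fin] at h1
    exact h1
  obtain ⟨c, L, κ, xx, yy, P, s, H, hP, hC⟩ := ld_exists Q hD ty hty hdeg m hm hm0
  obtain ⟨Col, h1, h2, h3, h4⟩ := stage hdeg H m hm
  refine ⟨fun p q a => Col ((p.1, false), p.2) ((q.1, false), q.2) a, ?_, ?_, ?_, ?_⟩
  · intro p q a h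
    exact h1 _ _ _ h
  · intro p q q' a h h'
    have h5 := h2 _ _ _ _ h h'
    have h6 := Prod.mk.inj h5
    exact Prod.ext (Prod.mk.inj h6.1).1 h6.2
  · intro g x y hxy
    let e : QE D A B := ⟨(none, s(x, y)), hxy⟩
    obtain ⟨e', h5, h6⟩ := hP e rfl (g, false)
    obtain ⟨a, ha⟩ := h3 e' x y h5 (g, false)
    rw [h6] at ha
    exact ⟨a, ha⟩
  · intro g g' x y hg hxy
    have hmt : m (c0 s(g, g')) (g, false) = (g', false) := by
      simp only [m]
      rw [hnbr _ g g' hg rfl, if_neg]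
      rintro ⟨_, h5⟩
      exact h5 ⟨g', hg, rfl⟩
    by_cases hxy' : x = y
    · subst hxy'
      obtain ⟨a, ha⟩ := h4 x (c0 s(g, g')) (g, false)
      rw [hmt] at ha
      exact ⟨a, ha⟩
    · let e : QE D A B := ⟨(some (c0 s(g, g')), s(x, y)), ⟨hxy', hxy⟩⟩
      obtain ⟨e', h5, h6⟩ := hC e (c0 s(g, g')) rfl (g, false)
      obtain ⟨a, ha⟩ := h3 e' x y h5 (g, false)
      rw [h6, hmt] at ha
      exact ⟨a, ha⟩

end Q130.RW
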